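import Pool.Agent.TH188.QS.FF5

/-!
# Base rings, general form
-/

set_option autoImplicit false
set_option linter.unusedVariables false
set_option linter.unusedSectionVars false

universe u v

namespace Pool.Agent.TH188.QS

open IsLocalRing Pool.Agent.W418.LU2

theorem FFT.of_finite {R : Type u} [CommRing R] {p : ℕ} [Fact p.Prime] [CharP R p]
    (h : (frobenius R p).Finite) : FFT p R := by
  classical
  let _ : Algebra R R := (frobenius R p).toAlgebra
  have h1 : (frobenius R p).FiniteType := RingHom.FiniteType.of_finite h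
  obtain ⟨s, hs⟩ := h1.out
  refine ⟨s, s.finite_toSet, fun z => ?_⟩
  have hz : z ∈ Algebra.adjoin R (s : Set R) := by rw [hs]; trivial
  induction hz using Algebra.adjoin_induction with
  | mem x hx => exact Subring.subset_closure (Or.inr hx)
  | algebraMap r => exact Subring.subset_closure (Or.inl ⟨r, rfl⟩)
  | add x y hx hy h1 h2 => exact Subring.add_mem _ h1 h2
  | mul x y hx hy h1 h2 => exact Subring.mul_mem _ h1 h2

/-- The condition on the quotient domain `R / 𝔭`. -/
def BR (R : Type u) [CommRing R] : Prop :=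
  ∀ 𝔭 : Ideal R, 𝔭.IsPrime → IsField (R ⧸ 𝔭) ∨
    ∃ (R₁ : Type u) (_ : CommRing R₁) (_ : IsDomain R₁) (_ : IsRegularRing R₁)
      (σ : R₁ →+* R ⧸ 𝔭), σ.FiniteType ∧
        ((∃ (p : ℕ) (_ : Fact p.Prime) (_ : CharP R₁ p), (frobenius R₁ p).Finite) ∨
        (∃ (k₀ : Type u) (_ : Field k₀) (_ : PerfectField k₀) (_ : Algebra k₀ R₁),
          Algebra.FormallySmooth k₀ R₁) ∨ (Function.Injective σ ∧ CharZero (R ⧸ 𝔭)))

theorem BR.hj {R : Type u} [CommRing R] (h : BR R) : HJ R := by
  classical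
  intro L _ ρ T hT hfr
  have hp : (RingHom.ker ρ).IsPrime := RingHom.ker_isPrime ρ
  have hker : ∀ (R₁ : Type u) [CommRing R₁] (σ : R₁ →+* R ⧸ RingHom.ker ρ), σ.FiniteType →
      ∃ T₁ : Set L, T₁.Finite ∧ Subring.closure
        ((((RingHom.kerLift ρ).comp σ).range : Set L) ∪ T₁) =
          Subring.closure ((ρ.range : Set L) ∪ T) := by
    intro R₁ _ σ hσ
    let ρ' : R ⧸ RingHom.ker ρ →+* L := RingHom.kerLift ρ
    have hρ' : ∀ x, ρ' (Ideal.Quotient.mk _ x) = ρ x := fun x => rfl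
    let ρ₁ : R₁ →+* L := ρ'.comp σ
    obtain ⟨s, hs⟩ : ∃ s : Finset (R ⧸ RingHom.ker ρ),
        ∀ z : R ⧸ RingHom.ker ρ, z ∈ Subring.closure ((σ.range : Set (R ⧸ RingHom.ker ρ)) ∪ s) := by
      let _ : Algebra R₁ (R ⧸ RingHom.ker ρ) := σ.toAlgebra
      have h1 : Algebra.FiniteType R₁ (R ⧸ RingHom.ker ρ) := hσ
      obtain ⟨s, hs⟩ := h1.out
      refine ⟨s, fun z => ?_⟩
      have hz : z ∈ Algebra.adjoin R₁ (s : Set (R ⧸ RingHom.ker ρ)) := by rw [hs]; trivial
      induction hz using Algebra.adjoin_induction with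
      | mem x hx => exact Subring.subset_closure (Or.inr hx)
      | algebraMap r => exact Subring.subset_closure (Or.inl ⟨r, rfl⟩)
      | add x y hx hy h1 h2 => exact Subring.add_mem _ h1 h2
      | mul x y hx hy h1 h2 => exact Subring.mul_mem _ h1 h2
    let T₁ : Set L := T ∪ ρ' '' (s : Set (R ⧸ RingHom.ker ρ))
    refine ⟨T₁, hT.union (s.finite_toSet.image _), ?_⟩
    change Subring.closure ((ρ₁.range : Set L) ∪ T₁) = Subring.closure ((ρ.range : Set L) ∪ T)
    apply le_antisymm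
    · rw [Subring.closure_le]
      rintro z (⟨x, rfl⟩ | hz | ⟨y, -, rfl⟩)
      · obtain ⟨w, hw⟩ := Ideal.Quotient.mk_surjective (σ x)
        refine Subring.subset_closure (Or.inl ⟨w, ?_⟩)
        rw [← hρ', hw]
        rfl
      · exact Subring.subset_closure (Or.inr hz)
      · obtain ⟨w, rfl⟩ := Ideal.Quotient.mk_surjective y
        exact Subring.subset_closure (Or.inl ⟨w, rfl⟩)
    · rw [Subring.closure_le]
      rintro z (⟨x, rfl⟩ | hz)
      · have h1 := hs (Ideal.Quotient.mk _ x)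
        rw [← hρ']
        have h2 : Subring.closure ((σ.range : Set (R ⧸ RingHom.ker ρ)) ∪ s) ≤
            (Subring.closure ((ρ₁.range : Set L) ∪ T₁)).comap ρ' := by
          rw [Subring.closure_le]
          rintro w (⟨y, rfl⟩ | hw)
          · exact Subring.subset_closure (Or.inl ⟨y, rfl⟩)
          · exact Subring.subset_closure (Or.inr (Or.inr ⟨w, hw, rfl⟩))
        exact h2 h1
      · exact Subring.subset_closure (Or.inr (Or.inl hz))
  rcases h _ hp with hfield | ⟨R₁, _, _, _, σ, hσ, hcase⟩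
  · let _ : Field (R ⧸ RingHom.ker ρ) := hfield.toField
    obtain ⟨T₁, hT₁, heq⟩ := hker (R ⧸ RingHom.ker ρ) (RingHom.id _) (RingHom.FiniteType.id _)
    rw [← heq] at hfr ⊢
    exact hj_field (k := R ⧸ RingHom.ker ρ) L _ T₁ hT₁ hfr
  · obtain ⟨T₁, hT₁, heq⟩ := hker R₁ σ hσ
    rw [← heq] at hfr ⊢
    rcases hcase with ⟨p, _, _, hfin⟩ | ⟨k₀, _, _, _, hfs⟩ | ⟨hinj, hchar⟩
    · exact hj_ff (FFT.of_finite hfin) L _ T₁ hT₁ hfr
    · exact hj_smooth (k₀ := k₀) L _ T₁ hT₁ hfr
    · obtain ⟨n, t, ht⟩ := exists_fin_range hT₁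
      rw [← ht] at hfr ⊢
      let _ : Algebra R₁ L := ((RingHom.kerLift ρ).comp σ).toAlgebra
      have hρi : Function.Injective (RingHom.kerLift ρ) := RingHom.kerLift_injective ρ
      have hi : Function.Injective (algebraMap R₁ L) := hρi.comp hinj
      have hL : CharZero L := charZero_of_injective_ringHom hρi
      exact ⟨MvPolynomial (Fin n) R₁, inferInstance, inferInstance, inferInstance,
        MvPolynomial.eval₂Hom ((RingHom.kerLift ρ).comp σ) t, range_eval _ t,
        wj_poly (k₀ := R₁) (h1_charZero hi) _ (fun a => rfl) t hfr⟩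

end Pool.Agent.TH188.QS
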