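import Pool.Agent.TH188.QS.Bases3

/-!
# Local uniformization over arbitrary regular base rings
-/

set_option autoImplicit false
set_option linter.unusedVariables false
set_option linter.unusedSectionVars false

universe u v

namespace Pool.Agent.TH188.QS

open IsLocalRing Pool.Agent.W418.LU2

/-- The theorem for regular base rings. -/
theorem main_reg_gp {R K : Type u} [CommRing R] [IsDomain R] [IsRegularRing R] [Field K]
    [Algebra R K] (hK : Subsingleton (Algebra.H1Cotangent R K)) {T : Set K} (hT : T.Finite)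
    {V : ValuationSubring K} {B : Subring K} (hBV : B ≤ V.toSubring)
    (hAB : Subring.closure (((algebraMap R K).range : Set K) ∪ T) ≤ B)
    (hBA : ∀ b ∈ B, ∃ a ∈ Subring.closure (((algebraMap R K).range : Set K) ∪ T),
      ∃ s ∈ Subring.closure (((algebraMap R K).range : Set K) ∪ T), s ≠ 0 ∧ s⁻¹ ∈ B ∧ b = a * s⁻¹)
    (hfr : ∀ z : K, ∃ a ∈ B, ∃ b ∈ B, b ≠ 0 ∧ z = a * b⁻¹)
    (hV : IsDiscreteValuationRing V ∨ Dv V (qseq V B)) : GP V B := by
  set A := Subring.closure (((algebraMap R K).range : Set K) ∪ T) with hA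
  have hAV : A ≤ V.toSubring := hAB.trans hBV
  have hBA' : B ≤ lo V.toSubring A := by
    intro b hb
    obtain ⟨a, ha, s, hs, hs0, hsB, rfl⟩ := hBA b hb
    exact ⟨a, ha, s, hs, hs0, hBV hsB, rfl⟩
  have hlo : lo V.toSubring B = lo V.toSubring A := le_antisymm (lo_le_lo hAV hBA') (lo_mono hAB)
  have hq : qseq V B = qseq V A := by
    funext n
    induction n with
    | zero => exact hlo
    | succ n ih => exact congrArg (qt V.toSubring) ih
  have hdv : Dv V (qseq V A) := by
    rcases hV with hV | hV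
    · exact dv_of_dvr hV fun n => qseq_le hAV n
    · rwa [hq] at hV
  have hfrA : ∀ z : K, Fr A z := by
    intro z
    obtain ⟨b, hb, c, hc, hc0, rfl⟩ := hfr z
    obtain ⟨a, ha, s, hs, hs0, -, rfl⟩ := hBA b hb
    obtain ⟨a', ha', s', hs', hs'0, -, rfl⟩ := hBA c hc
    have ha'0 : a' ≠ 0 := left_ne_zero_of_mul hc0
    refine ⟨a * s', A.mul_mem ha hs', s * a', A.mul_mem hs ha', mul_ne_zero hs0 ha'0, ?_⟩
    field_simp
  obtain ⟨h1, hnoe⟩ := gp_fs (k₀ := R) hK (algebraMap R K) (fun a => rfl) hT hfrA hAV hdv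
  exact h1.loc hAV hAB hBA'

/-- Local uniformization of rings essentially of finite type over a regular ring. -/
theorem lu_reg {R₁ : Type u} [CommRing R₁] [IsDomain R₁] [IsRegularRing R₁] {R : Type u}
    [CommRing R] [Algebra R₁ R] [Algebra.EssFiniteType R₁ R] {K : Type u} [Field K] [Algebra R K]
    [IsDomain R] [IsFractionRing R K] [Algebra R₁ K] [IsScalarTower R₁ R K]
    (hK : Subsingleton (Algebra.H1Cotangent R₁ K)) (V : ValuationSubring K)
    (hRV : ∀ r : R, algebraMap R K r ∈ V)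
    (hV : IsDiscreteValuationRing V ∨ Dv V (qseq V (algebraMap R K).range)) :
    ∃ B : Subalgebra R K, B.FG ∧ (∀ b : B, (b : K) ∈ V) ∧
      ∃ P : Ideal B, ∃ (_ : P.IsPrime), (∀ b : B, b ∈ P ↔ V.valuation (b : K) < 1) ∧
        IsRegularLocalRing (Localization.AtPrime P) := by
  obtain ⟨T, hT, hTB, hBT⟩ := ess_closure (R₀ := R₁) (R := R) (K := K) (IsFractionRing.injective R K)
  rw [← IsScalarTower.algebraMap_eq R₁ R K] at hTB hBT
  have hBV : (algebraMap R K).range ≤ V.toSubring := by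
    rintro _ ⟨r, rfl⟩
    exact hRV r
  have h1 := main_reg_gp hK hT hBV hTB hBT (fun z => by
    obtain ⟨a, b, hb, rfl⟩ := IsFractionRing.div_surjective (A := R) z
    refine ⟨_, ⟨a, rfl⟩, _, ⟨b, rfl⟩, ?_, div_eq_mul_inv _ _⟩
    exact (map_ne_zero_iff _ (IsFractionRing.injective R K)).2 (nonZeroDivisors.ne_zero hb)) hV
  obtain ⟨T', hT', hT'V, hreg⟩ := lu_of_gp h1
  obtain ⟨h3, h4⟩ := regular_centre (R := R) (cl_le hBV hT'V) hreg
  refine ⟨Algebra.adjoin R T', ?_, h3, h4⟩
  exact ⟨hT'.toFinset, by rw [hT'.coe_toFinset]⟩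

end Pool.Agent.TH188.QS
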