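import Pool.Agent.TH188.QS.RegBase

/-!
# More base rings
-/

set_option autoImplicit false
set_option linter.unusedVariables false
set_option linter.unusedSectionVars false

universe u v

namespace Pool.Agent.TH188.QS

open IsLocalRing Pool.Agent.W418.LU2

/-- Rings whose quotient domains are of finite type over good regular domains. -/
theorem hj_of_quot {R : Type u} [CommRing R]
    (h : ∀ 𝔭 : Ideal R, 𝔭.IsPrime → ∃ (R₁ : Type u) (_ : CommRing R₁) (_ : IsDomain R₁)
      (_ : IsRegularRing R₁) (σ : R₁ →+* R ⧸ 𝔭), σ.FiniteType ∧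
        ((∃ (k₀ : Type u) (_ : Field k₀) (_ : PerfectField k₀) (_ : Algebra k₀ R₁),
          Algebra.FormallySmooth k₀ R₁) ∨ (Function.Injective σ ∧ CharZero (R ⧸ 𝔭)))) : HJ R := by
  classical
  intro L _ ρ T hT hfr
  have hp : (RingHom.ker ρ).IsPrime := RingHom.ker_isPrime ρ
  obtain ⟨R₁, _, _, _, σ, hσ, hcase⟩ := h _ hp
  let ρ' : R ⧸ RingHom.ker ρ →+* L := RingHom.kerLift ρ
  have hρ' : ∀ x, ρ' (Ideal.Quotient.mk _ x) = ρ x := fun x => rfl
  let ρ₁ : R₁ →+* L := ρ'.comp σ
  obtain ⟨s, hs⟩ : ∃ s : Finset (R ⧸ RingHom.ker ρ),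
      ∀ z : R ⧸ RingHom.ker ρ, z ∈ Subring.closure ((σ.range : Set (R ⧸ RingHom.ker ρ)) ∪ s) := by
    let _ : Algebra R₁ (R ⧸ RingHom.ker ρ) := σ.toAlgebra
    have h1 : Algebra.FiniteType R₁ (R ⧸ RingHom.ker ρ) := hσ
    obtain ⟨s, hs⟩ := h1.out
    refine ⟨s, fun z => ?_⟩
    have hz : z ∈ Algebra.adjoin R₁ (s : Set (R ⧸ RingHom.ker ρ)) := by rw [hs]; trivial
    induction hz using Algebra.adjoin_induction with
    | mem x hx => exact Subring.subset_closure (Or.inr hx)
    | algebraMap r => exact Subring.subset_closure (Or.inl ⟨r, rfl⟩)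
    | add x y hx hy h1 h2 => exact Subring.add_mem _ h1 h2
    | mul x y hx hy h1 h2 => exact Subring.mul_mem _ h1 h2
  let T₁ : Set L := T ∪ ρ' '' (s : Set (R ⧸ RingHom.ker ρ))
  have hT₁ : T₁.Finite := hT.union (s.finite_toSet.image _)
  have heq : Subring.closure ((ρ₁.range : Set L) ∪ T₁) = Subring.closure ((ρ.range : Set L) ∪ T) := by
    apply le_antisymm
    · rw [Subring.closure_le]
      rintro z (⟨x, rfl⟩ | hz | ⟨y, -, rfl⟩)
      · obtain ⟨w, hw⟩ := Ideal.Quotient.mk_surjective (σ x)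
        refine Subring.subset_closure (Or.inl ⟨w, ?_⟩)
        rw [← hρ', hw]
        rfl
      · exact Subring.subset_closure (Or.inr hz)
      · obtain ⟨w, rfl⟩ := Ideal.Quotient.mk_surjective y
        exact Subring.subset_closure (Or.inl ⟨w, rfl⟩)
    · rw [Subring.closure_le]
      rintro z (⟨x, rfl⟩ | hz)
      · have h1 := hs (Ideal.Quotient.mk _ x)
        rw [← hρ']
        have h2 : Subring.closure ((σ.range : Set (R ⧸ RingHom.ker ρ)) ∪ s) ≤
            (Subring.closure ((ρ₁.range : Set L) ∪ T₁)).comap ρ' := by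
          rw [Subring.closure_le]
          rintro w (⟨y, rfl⟩ | hw)
          · exact Subring.subset_closure (Or.inl ⟨y, rfl⟩)
          · exact Subring.subset_closure (Or.inr (Or.inr ⟨w, hw, rfl⟩))
        exact h2 h1
      · exact Subring.subset_closure (Or.inr (Or.inl hz))
  rw [← heq] at hfr ⊢
  rcases hcase with ⟨k₀, _, _, _, hfs⟩ | ⟨hinj, hchar⟩
  · exact hj_smooth (k₀ := k₀) L ρ₁ T₁ hT₁ hfr
  · obtain ⟨n, t, ht⟩ := exists_fin_range hT₁
    rw [← ht] at hfr ⊢
    let _ : Algebra R₁ L := ρ₁.toAlgebra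
    have hρi : Function.Injective ρ' := RingHom.kerLift_injective ρ
    have hi : Function.Injective (algebraMap R₁ L) := hρi.comp hinj
    have hL : CharZero L := charZero_of_injective_ringHom hρi
    exact ⟨MvPolynomial (Fin n) R₁, inferInstance, inferInstance, inferInstance,
      MvPolynomial.eval₂Hom ρ₁ t, range_eval ρ₁ t,
      wj_poly (k₀ := R₁) (h1_charZero hi) ρ₁ (fun a => rfl) t hfr⟩

end Pool.Agent.TH188.QS
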