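import Pool.Agent.TH188.QS.Bases2

/-!
# p-bases of fields
-/

set_option autoImplicit false
set_option linter.unusedVariables false
set_option linter.unusedSectionVars false

universe u v

namespace Pool.Agent.TH188.QS

open Polynomial

/-- Independence of powers. -/
theorem pow_indep {p : ℕ} [hp : Fact p.Prime] {κ F : Type u} [Field κ] [CharP κ p] [Field F]
    [Algebra F κ] {x : κ} (hx : x ∉ (algebraMap F κ).range) (hxp : ∃ c, algebraMap F κ c = x ^ p) :
    Irreducible (X ^ p - C hxp.choose : F[X]) ∧ minpoly F x = X ^ p - C hxp.choose := by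
  have hc := hxp.choose_spec
  set c := hxp.choose with hcdef
  have hirr : Irreducible (X ^ p - C c : F[X]) := by
    refine X_pow_sub_C_irreducible_of_prime hp.out fun b hb => hx ⟨b, ?_⟩
    have h1 : frobenius κ p (algebraMap F κ b) = frobenius κ p x := by
      rw [frobenius_def, frobenius_def, ← map_pow, hb, hc]
    exact frobenius_inj κ p h1
  refine ⟨hirr, ?_⟩
  refine (minpoly.eq_of_irreducible_of_monic hirr ?_ (monic_X_pow_sub_C _ hp.out.ne_zero)).symm
  rw [map_sub, map_pow, aeval_X, aeval_C, hc, sub_self]

theorem pow_indep' {p : ℕ} [hp : Fact p.Prime] {κ F : Type u} [Field κ] [CharP κ p] [Field F]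
    [Algebra F κ] {x : κ} (hx : x ∉ (algebraMap F κ).range) (hxp : ∃ c, algebraMap F κ c = x ^ p)
    (c : Fin p → F) (h : ∑ a, algebraMap F κ (c a) * x ^ (a : ℕ) = 0) : ∀ a, c a = 0 := by
  obtain ⟨-, hmin⟩ := pow_indep hx hxp
  let P : F[X] := ∑ i : Fin p, C (c i) * X ^ (i : ℕ)
  have hP : aeval x P = 0 := by
    rw [map_sum]
    simp_rw [map_mul, aeval_C, map_pow, aeval_X]
    exact h
  have hdeg : P.degree < p := degree_sum_fin_lt c
  have hP0 : P = 0 := by
    by_contra hne
    have h1 := minpoly.degree_le_of_ne_zero F x hne hP
    rw [hmin, degree_X_pow_sub_C hp.out.pos] at h1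
    exact absurd (lt_of_le_of_lt h1 hdeg) (lt_irrefl _)
  intro a
  have h2 : P.coeff a = c a := by
    rw [finsetSum_coeff, Finset.sum_eq_single a]
    · rw [coeff_C_mul, coeff_X_pow, if_pos rfl, mul_one]
    · intro b _ hba
      rw [coeff_C_mul, coeff_X_pow, if_neg fun h => hba (Fin.ext h.symm), mul_zero]
    · intro h; exact absurd (Finset.mem_univ _) h
  rw [← h2, hP0, coeff_zero]

/-- Existence of `p`-bases. -/
theorem pb {p : ℕ} [hp : Fact p.Prime] {κ : Type u} [Field κ] [CharP κ p] (n : ℕ) :
    ∀ (F : Type u) [Field F] [Algebra F κ] [FiniteDimensional F κ], Module.finrank F κ ≤ n →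
      (∀ y : κ, ∃ c : F, algebraMap F κ c = y ^ p) →
      ∃ (ι : Type) (_ : Fintype ι) (_ : DecidableEq ι) (b : ι → κ),
        (∀ z, z ∈ Subring.closure (((algebraMap F κ).range : Set κ) ∪ Set.range b)) ∧
        ∀ c : (ι → Fin p) → F, ∑ α, algebraMap F κ (c α) * ∏ i, b i ^ (α i : ℕ) = 0 →
          ∀ α, c α = 0 := by
  classical
  induction n with
  | zero =>
    intro F _ _ _ hn _
    have := Module.finrank_pos (R := F) (M := κ)
    omega
  | succ n ih =>
    intro F _ _ _ hn hF
    by_cases hsurj : ∀ x : κ, x ∈ (algebraMap F κ).range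
    · refine ⟨Empty, inferInstance, inferInstance, Empty.elim, fun z => Subring.subset_closure (Or.inl (hsurj z)),
        fun c hc α => ?_⟩
      rw [Fintype.sum_eq_single α (fun β hβ => absurd (Subsingleton.elim β α) hβ),
        Finset.univ_eq_empty, Finset.prod_empty, mul_one] at hc
      exact (algebraMap F κ).injective (by rw [hc, map_zero])
    · push Not at hsurj
      obtain ⟨x, hx⟩ := hsurj
      obtain ⟨hirr, hmin⟩ := pow_indep hx (hF x)
      let F' := IntermediateField.adjoin F {x}
      have hint : IsIntegral F x := Algebra.IsIntegral.isIntegral x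
      have hrank : Module.finrank F F' = p := by
        rw [IntermediateField.adjoin.finrank hint, hmin, natDegree_X_pow_sub_C]
      have hmul := Module.finrank_mul_finrank F F' κ
      rw [hrank] at hmul
      have hlt : Module.finrank F' κ ≤ n := by
        have h2 := hp.out.two_le
        have h3 : 0 < Module.finrank F' κ := Module.finrank_pos
        have h4 : 2 * Module.finrank F' κ ≤ Module.finrank F κ := by
          rw [← hmul]
          exact Nat.mul_le_mul_right _ h2
        omega
      obtain ⟨ι, _, _, b, hb, hind⟩ := ih F' hlt (fun y => by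
        obtain ⟨c, hc⟩ := hF y
        exact ⟨algebraMap F F' c, by rw [← IsScalarTower.algebraMap_apply, hc]⟩)
      refine ⟨Option ι, inferInstance, inferInstance, fun o => o.elim x b, ?_, ?_⟩
      · have hle : Subring.closure (((algebraMap F' κ).range : Set κ) ∪ Set.range b) ≤
            Subring.closure (((algebraMap F κ).range : Set κ) ∪
              Set.range fun o : Option ι => o.elim x b) := by
          rw [Subring.closure_le]
          rintro z (⟨⟨y, hy⟩, rfl⟩ | ⟨i, rfl⟩)
          · have h1 : y ∈ F'.toSubalgebra := hy
            rw [IntermediateField.adjoin_simple_toSubalgebra_of_isAlgebraic hint.isAlgebraic] at h1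
            change y ∈ _
            clear hy
            induction h1 using Algebra.adjoin_induction with
            | mem w hw =>
              rw [Set.mem_singleton_iff.1 hw]
              exact Subring.subset_closure (Or.inr ⟨none, rfl⟩)
            | algebraMap r => exact Subring.subset_closure (Or.inl ⟨r, rfl⟩)
            | add x y hx hy h1 h2 => exact Subring.add_mem _ h1 h2
            | mul x y hx hy h1 h2 => exact Subring.mul_mem _ h1 h2
          · exact Subring.subset_closure (Or.inr ⟨some i, rfl⟩)
        exact fun z => hle (hb z)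
      · intro c hc
        let e : (Option ι → Fin p) ≃ Fin p × (ι → Fin p) := Equiv.piOptionEquivProd
        have hx' : x ∈ F' := IntermediateField.mem_adjoin_simple_self F x
        have h1 : ∑ β : ι → Fin p, algebraMap F' κ
            (∑ a : Fin p, algebraMap F F' (c (e.symm (a, β))) * (⟨x, hx'⟩ : F') ^ (a : ℕ)) *
              ∏ i, b i ^ (β i : ℕ) = 0 := by
          rw [← hc, ← e.symm.sum_comp, Fintype.sum_prod_type_right]
          refine Finset.sum_congr rfl fun β _ => ?_
          rw [map_sum, Finset.sum_mul]
          refine Finset.sum_congr rfl fun a _ => ?_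
          rw [map_mul, map_pow, ← IsScalarTower.algebraMap_apply, Fintype.prod_option]
          have h2 : algebraMap F' κ ⟨x, hx'⟩ = x := rfl
          rw [h2]
          have h3 : (e.symm (a, β)) none = a := rfl
          have h4 : ∀ i, (e.symm (a, β)) (some i) = β i := fun i => rfl
          simp only [Option.elim, h3, h4]
          ring
        intro α
        have h2 := hind _ h1 (e α).2
        have h3 := congrArg (algebraMap F' κ) h2
        rw [map_sum, map_zero] at h3
        have h4 := pow_indep' hx (hF x) (fun a => c (e.symm (a, (e α).2))) (by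
          rw [← h3]
          refine Finset.sum_congr rfl fun a _ => ?_
          rw [map_mul, map_pow, ← IsScalarTower.algebraMap_apply]
          rfl) (e α).1
        rwa [Prod.mk.eta, e.symm_apply_apply] at h4

end Pool.Agent.TH188.QS
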