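import Pool.Agent.TH188.QS.FF1

/-!
# p-independence in regular local rings
-/

set_option autoImplicit false
set_option linter.unusedVariables false
set_option linter.unusedSectionVars false

universe u v

namespace Pool.Agent.TH188.QS

open IsLocalRing Pool.Agent.W418.LU2

variable {B : Type u} [CommRing B]

/-- The monomials in `y` are independent over the ring of `p`-th powers modulo `I`. -/
def PI (p : ℕ) (I : Ideal B) {ι : Type} [Fintype ι] [DecidableEq ι] (y : ι → B) : Prop :=
  ∀ G : (ι → Fin p) → B, ∑ α, G α ^ p * ∏ i, y i ^ (α i : ℕ) ∈ I → ∀ α, G α ∈ I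

lemma PI.equiv {p : ℕ} {I : Ideal B} {ι κ : Type} [Fintype ι] [DecidableEq ι] [Fintype κ]
    [DecidableEq κ] {y : ι → B} (h : PI p I y) (e : κ ≃ ι) : PI p I (fun k => y (e k)) := by
  intro G hG α
  let E : (κ → Fin p) ≃ (ι → Fin p) := Equiv.arrowCongr e (Equiv.refl _)
  have h1 := h (fun β => G (E.symm β)) (by
    rw [← E.sum_comp]
    convert hG using 1
    refine Finset.sum_congr rfl fun β _ => ?_
    rw [E.symm_apply_apply]
    congr 1
    rw [← e.prod_comp]
    refine Finset.prod_congr rfl fun k _ => ?_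
    have h2 : E β (e k) = β k := by
      change β (e.symm (e k)) = β k
      rw [e.symm_apply_apply]
    rw [h2]) (E α)
  rwa [E.symm_apply_apply] at h1

/-- Adjoining a prime element. -/
theorem PI.option {p : ℕ} [hp : Fact p.Prime] {I J : Ideal B} [hI : I.IsPrime] {t : B}
    (ht : t ∉ I) (hJ : J = I ⊔ Ideal.span {t})
    (hK : ∀ x, (∀ N : ℕ, x ∈ I ⊔ Ideal.span {t ^ N}) → x ∈ I) {ι : Type} [Fintype ι]
    [DecidableEq ι] {y : ι → B} (hy : PI p J y) : PI p I (fun o : Option ι => o.elim t y) := by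
  classical
  have hIJ : I ≤ J := by rw [hJ]; exact le_sup_left
  have htJ : t ∈ J := by
    rw [hJ]
    exact Ideal.mem_sup_right (Ideal.mem_span_singleton_self t)
  have hJmem : ∀ x ∈ J, ∃ c, x - t * c ∈ I := by
    intro x hx
    rw [hJ, Submodule.mem_sup] at hx
    obtain ⟨i, hi, z, hz, rfl⟩ := hx
    obtain ⟨c, rfl⟩ := Ideal.mem_span_singleton'.1 hz
    refine ⟨c, ?_⟩
    have h1 : i + c * t - t * c = i := by ring
    rwa [h1]
  have hcancel : ∀ (n : ℕ) (x : B), t ^ n * x ∈ I → x ∈ I := fun n x h =>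
    (hI.mem_or_mem h).resolve_left fun h' => ht (hI.mem_of_pow_mem n h')
  intro G hG
  let e : (Option ι → Fin p) ≃ Fin p × (ι → Fin p) := Equiv.piOptionEquivProd
  let S : ((ι → Fin p) → B) → B := fun g => ∑ β, g β ^ p * ∏ i, y i ^ (β i : ℕ)
  let H : Fin p → (ι → Fin p) → B := fun a β => G (e.symm (a, β))
  have hH : ∑ a : Fin p, t ^ (a : ℕ) * S (H a) ∈ I := by
    convert hG using 1
    rw [← e.symm.sum_comp, Fintype.sum_prod_type]
    refine Finset.sum_congr rfl fun a _ => ?_
    rw [Finset.mul_sum]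
    refine Finset.sum_congr rfl fun β _ => ?_
    rw [Fintype.prod_option]
    have h3 : (e.symm (a, β)) none = a := rfl
    have h4 : ∀ i, (e.symm (a, β)) (some i) = β i := fun i => rfl
    simp only [Option.elim, h3, h4, H]
    ring
  -- one step
  have step : ∀ H : Fin p → (ι → Fin p) → B, ∑ a : Fin p, t ^ (a : ℕ) * S (H a) ∈ I →
      ∃ H' : Fin p → (ι → Fin p) → B, (∀ a β, H a β - t * H' a β ∈ I) ∧
        ∑ a : Fin p, t ^ (a : ℕ) * S (H' a) ∈ I := by
    intro H hH
    have hSpow : ∀ g g' : (ι → Fin p) → B, (∀ β, g β - t * g' β ∈ I) →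
        S g - t ^ p * S g' ∈ I := by
      intro g g' hg
      have h1 : S g - t ^ p * S g' = ∑ β, (g β ^ p - (t * g' β) ^ p) * ∏ i, y i ^ (β i : ℕ) := by
        change ∑ β, _ - t ^ p * ∑ β, _ = _
        rw [Finset.mul_sum, ← Finset.sum_sub_distrib]
        refine Finset.sum_congr rfl fun β _ => ?_
        rw [mul_pow]
        ring
      rw [h1]
      exact Ideal.sum_mem _ fun β _ => Ideal.mul_mem_right _ _
        (Ideal.mem_of_dvd I (sub_dvd_pow_sub_pow _ _ p) (hg β))
    have hA : ∀ n : ℕ, ∀ a : Fin p, (a : ℕ) = n → ∀ β, H a β ∈ J := by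
      intro n
      induction n using Nat.strong_induction_on with
      | _ n ih =>
        intro a han
        have hlow : ∀ a' : Fin p, a' < a → ∃ c, t ^ (a' : ℕ) * S (H a') - t ^ ((a : ℕ) + 1) * c ∈ I := by
          intro a' ha'
          have h1 := ih a' (by rw [← han]; exact ha') a' rfl
          choose g' hg' using fun β => hJmem _ (h1 β)
          have h2 := hSpow (H a') g' hg'
          have h3 : (a : ℕ) + 1 ≤ p := a.2
          refine ⟨t ^ (a' : ℕ) * t ^ (p - ((a : ℕ) + 1)) * S g', ?_⟩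
          have h4 : t ^ ((a : ℕ) + 1) * (t ^ (a' : ℕ) * t ^ (p - ((a : ℕ) + 1)) * S g') =
              t ^ (a' : ℕ) * (t ^ p * S g') := by
            have h5 : t ^ p = t ^ ((a : ℕ) + 1) * t ^ (p - ((a : ℕ) + 1)) := by
              rw [← pow_add]
              congr 1
              omega
            rw [h5]
            ring
          rw [h4, ← mul_sub]
          exact Ideal.mul_mem_left _ _ h2
        have hhigh : ∀ a' : Fin p, a < a' → ∃ c, t ^ (a' : ℕ) * S (H a') - t ^ ((a : ℕ) + 1) * c ∈ I := by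
          intro a' ha'
          have h3 : (a : ℕ) + 1 ≤ a' := ha'
          refine ⟨t ^ ((a' : ℕ) - ((a : ℕ) + 1)) * S (H a'), ?_⟩
          have h4 : t ^ ((a : ℕ) + 1) * (t ^ ((a' : ℕ) - ((a : ℕ) + 1)) * S (H a')) =
              t ^ (a' : ℕ) * S (H a') := by
            rw [← mul_assoc, ← pow_add]
            congr 2
            omega
          rw [h4, sub_self]
          exact I.zero_mem
        have hoth : ∀ a' : Fin p, ∃ c, a' ≠ a → t ^ (a' : ℕ) * S (H a') - t ^ ((a : ℕ) + 1) * c ∈ I := by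
          intro a'
          rcases lt_trichotomy a' a with h | h | h
          · obtain ⟨c, hc⟩ := hlow a' h
            exact ⟨c, fun _ => hc⟩
          · exact ⟨0, fun h' => absurd h h'⟩
          · obtain ⟨c, hc⟩ := hhigh a' h
            exact ⟨c, fun _ => hc⟩
        choose c hc using hoth
        have h5 : t ^ (a : ℕ) * (S (H a) + t * ∑ a' ∈ Finset.univ.erase a, c a') ∈ I := by
          have h6 : t ^ (a : ℕ) * (S (H a) + t * ∑ a' ∈ Finset.univ.erase a, c a') =
              ∑ a' : Fin p, t ^ (a' : ℕ) * S (H a') - ∑ a' ∈ Finset.univ.erase a,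
                (t ^ (a' : ℕ) * S (H a') - t ^ ((a : ℕ) + 1) * c a') := by
            rw [← Finset.add_sum_erase _ _ (Finset.mem_univ a), Finset.sum_sub_distrib,
              ← Finset.mul_sum]
            ring
          rw [h6]
          exact I.sub_mem hH (I.sum_mem fun a' ha' => hc a' (Finset.ne_of_mem_erase ha'))
        have h6 := hcancel _ _ h5
        have h7 : S (H a) ∈ J := by
          have h8 : S (H a) = (S (H a) + t * ∑ a' ∈ Finset.univ.erase a, c a') -
              t * ∑ a' ∈ Finset.univ.erase a, c a' := by ring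
          rw [h8]
          exact J.sub_mem (hIJ h6) (J.mul_mem_right _ htJ)
        exact hy _ h7
    choose H' hH' using fun a β => hJmem _ (hA _ a rfl β)
    refine ⟨H', hH', hcancel p _ ?_⟩
    have h1 : t ^ p * ∑ a : Fin p, t ^ (a : ℕ) * S (H' a) = ∑ a : Fin p, t ^ (a : ℕ) * S (H a) -
        ∑ a : Fin p, t ^ (a : ℕ) * (S (H a) - t ^ p * S (H' a)) := by
      rw [← Finset.sum_sub_distrib, Finset.mul_sum]
      exact Finset.sum_congr rfl fun a _ => by ring
    rw [h1]
    exact I.sub_mem hH (I.sum_mem fun a _ => I.mul_mem_left _ (hSpow _ _ (hH' a)))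
  have hall : ∀ N : ℕ, ∃ H' : Fin p → (ι → Fin p) → B, (∀ a β, H a β - t ^ N * H' a β ∈ I) ∧
        ∑ a : Fin p, t ^ (a : ℕ) * S (H' a) ∈ I := by
    intro N
    induction N with
    | zero => exact ⟨H, fun a β => by rw [pow_zero, one_mul, sub_self]; exact I.zero_mem, hH⟩
    | succ N ih =>
      obtain ⟨H₁, h1, h2⟩ := ih
      obtain ⟨H₂, h3, h4⟩ := step H₁ h2
      refine ⟨H₂, fun a β => ?_, h4⟩
      have h5 : H a β - t ^ (N + 1) * H₂ a β = (H a β - t ^ N * H₁ a β) +
          t ^ N * (H₁ a β - t * H₂ a β) := by ring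
      rw [h5]
      exact I.add_mem (h1 a β) (I.mul_mem_left _ (h3 a β))
  intro α
  have h1 : G α = H (e α).1 (e α).2 := by
    change G α = G (e.symm ((e α).1, (e α).2))
    rw [Prod.mk.eta, e.symm_apply_apply]
  rw [h1]
  refine hK _ fun N => ?_
  obtain ⟨H', h2, -⟩ := hall N
  have h3 : H (e α).1 (e α).2 = (H (e α).1 (e α).2 - t ^ N * H' (e α).1 (e α).2) +
      t ^ N * H' (e α).1 (e α).2 := by ring
  rw [h3]
  exact Submodule.add_mem_sup (h2 _ _) (Ideal.mul_mem_right _ _ (Ideal.mem_span_singleton_self _))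

end Pool.Agent.TH188.QS
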