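import Pool.Agent.TH188.QS.FF3

/-!
# Rings which are finite over their p-th powers
-/

set_option autoImplicit false
set_option linter.unusedVariables false
set_option linter.unusedSectionVars false

universe u v

namespace Pool.Agent.TH188.QS

open IsLocalRing Pool.Agent.W418.LU2

/-- The set of `p`-th powers. -/
def pw (p : ℕ) (B : Type u) [CommRing B] : Set B := {z | ∃ w : B, z = w ^ p}

/-- `B` is finitely generated as a ring over its `p`-th powers. -/
def FFT (p : ℕ) (B : Type u) [CommRing B] : Prop :=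
  ∃ s : Set B, s.Finite ∧ ∀ x : B, x ∈ Subring.closure (pw p B ∪ s)

lemma closure_map_le {B C : Type u} [CommRing B] [CommRing C] {p : ℕ} (f : B →+* C) {s : Set B}
    {t : Set C} (h : ∀ x ∈ s, f x ∈ Subring.closure (pw p C ∪ t)) {x : B}
    (hx : x ∈ Subring.closure (pw p B ∪ s)) : f x ∈ Subring.closure (pw p C ∪ t) := by
  have h1 : Subring.closure (pw p B ∪ s) ≤ (Subring.closure (pw p C ∪ t)).comap f := by
    rw [Subring.closure_le]
    rintro z (⟨w, rfl⟩ | hz)
    · change f (w ^ p) ∈ Subring.closure (pw p C ∪ t)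
      rw [map_pow]
      exact Subring.subset_closure (Or.inl ⟨f w, rfl⟩)
    · exact h z hz
  exact h1 hx

theorem FFT.of_surjective {B C : Type u} [CommRing B] [CommRing C] {p : ℕ} (f : B →+* C)
    (hf : Function.Surjective f) (h : FFT p B) : FFT p C := by
  obtain ⟨s, hs, hB⟩ := h
  refine ⟨f '' s, hs.image _, fun y => ?_⟩
  obtain ⟨x, rfl⟩ := hf y
  exact closure_map_le f (s := s) (t := f '' s)
    (fun x hx => Subring.subset_closure (Or.inr ⟨x, hx, rfl⟩)) (hB x)

theorem FFT.poly {R : Type u} [CommRing R] {p : ℕ} (h : FFT p R) (n : ℕ) :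
    FFT p (MvPolynomial (Fin n) R) := by
  obtain ⟨s, hs, hR⟩ := h
  refine ⟨(MvPolynomial.C '' s) ∪ Set.range MvPolynomial.X, (hs.image _).union (Set.finite_range _),
    fun f => ?_⟩
  induction f using MvPolynomial.induction_on with
  | C a =>
    exact closure_map_le MvPolynomial.C
      (fun x hx => Subring.subset_closure (Or.inr (Or.inl ⟨x, hx, rfl⟩))) (hR a)
  | add f g hf hg => exact Subring.add_mem _ hf hg
  | mul_X f i hf =>
    exact Subring.mul_mem _ hf (Subring.subset_closure (Or.inr (Or.inr ⟨i, rfl⟩)))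

theorem FFT.loc {B : Type u} [CommRing B] {p : ℕ} (hp : p ≠ 0) (h : FFT p B) (I : Ideal B)
    [I.IsPrime] : FFT p (Localization.AtPrime I) := by
  obtain ⟨s, hs, hB⟩ := h
  refine ⟨algebraMap B _ '' s, hs.image _, fun z => ?_⟩
  obtain ⟨x, t, rfl⟩ := IsLocalization.exists_mk'_eq I.primeCompl z
  have h1 : IsLocalization.mk' (Localization.AtPrime I) x t =
      algebraMap B _ (x * (t : B) ^ (p - 1)) * (IsLocalization.mk' (Localization.AtPrime I) 1 t) ^ p := by
    rw [IsLocalization.mk'_eq_iff_eq_mul, map_mul, map_pow]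
    have h2 : IsLocalization.mk' (Localization.AtPrime I) 1 t * algebraMap B _ (t : B) = 1 := by
      rw [IsLocalization.mk'_spec, map_one]
    obtain ⟨q, rfl⟩ := Nat.exists_eq_succ_of_ne_zero hp
    rw [Nat.succ_eq_add_one, Nat.add_sub_cancel]
    calc algebraMap B (Localization.AtPrime I) x = algebraMap B _ x * 1 ^ (q + 1) := by
          rw [one_pow, mul_one]
      _ = algebraMap B _ x * (IsLocalization.mk' (Localization.AtPrime I) 1 t *
          algebraMap B _ (t : B)) ^ (q + 1) := by rw [h2]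
      _ = _ := by ring
  rw [h1]
  exact Subring.mul_mem _ (closure_map_le (algebraMap B (Localization.AtPrime I)) (s := s)
    (t := algebraMap B (Localization.AtPrime I) '' s)
    (fun x hx => Subring.subset_closure (Or.inr ⟨x, hx, rfl⟩)) (hB _))
    (Subring.subset_closure (Or.inl ⟨_, rfl⟩))

/-- Nakayama's lemma for the subring generated by `p`-th powers, parameters and lifts. -/
theorem FFT.nak {B : Type u} [CommRing B] [IsLocalRing B] {p : ℕ} (hp : p ≠ 0) (h : FFT p B)
    {κ : Type} [Fintype κ] {e : κ → B} (he : Ideal.span (Set.range e) = maximalIdeal B) {Y : Set B}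
    (heY : ∀ k, e k ∈ Y)
    (hres : ∀ x : B, ∃ c ∈ Subring.closure (pw p B ∪ Y), x - c ∈ maximalIdeal B) (x : B) :
    x ∈ Subring.closure (pw p B ∪ Y) := by
  classical
  obtain ⟨s, hs, hB⟩ := h
  set C := Subring.closure (pw p B ∪ Y) with hC
  have hpw : ∀ w : B, w ^ p ∈ C := fun w => Subring.subset_closure (Or.inl ⟨w, rfl⟩)
  have hloc : IsLocalHom C.subtype := by
    constructor
    intro a ha
    obtain ⟨b, hb⟩ := isUnit_iff_exists_inv.1 ha
    change (a : B) * b = 1 at hb
    have hbC : b ∈ C := by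
      have h1 : b = b ^ p * (a : B) ^ (p - 1) := by
        obtain ⟨q, rfl⟩ := Nat.exists_eq_succ_of_ne_zero hp
        rw [Nat.succ_eq_add_one, Nat.add_sub_cancel, pow_succ]
        calc b = (((a : B) * b) ^ q) * b := by rw [hb, one_pow, one_mul]
          _ = _ := by ring
      rw [h1]
      exact C.mul_mem (hpw b) (C.pow_mem a.2 _)
    exact isUnit_iff_exists_inv.2 ⟨⟨b, hbC⟩, Subtype.ext hb⟩
  have hCl : IsLocalRing C := RingHom.domain_isLocalRing C.subtype
  have hft : Algebra.FiniteType C B := by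
    refine ⟨⟨hs.toFinset, ?_⟩⟩
    rw [eq_top_iff]
    intro z _
    have h1 : Subring.closure (pw p B ∪ s) ≤ (Algebra.adjoin C (hs.toFinset : Set B)).toSubring := by
      rw [Subring.closure_le]
      rintro z (⟨w, rfl⟩ | hz)
      · exact (Algebra.adjoin C (hs.toFinset : Set B)).algebraMap_mem ⟨w ^ p, hpw w⟩
      · exact Algebra.subset_adjoin (by simpa using hz)
    exact h1 (hB z)
  have hint : Algebra.IsIntegral C B := by
    constructor
    intro z
    refine IsIntegral.of_pow (Nat.pos_of_ne_zero hp) ?_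
    exact isIntegral_algebraMap (x := (⟨z ^ p, hpw z⟩ : C))
  have hfin : Module.Finite C B := Algebra.IsIntegral.finite
  have hmax : ∀ k, ∃ c ∈ maximalIdeal C, (c : B) = e k := by
    intro k
    refine ⟨⟨e k, Subring.subset_closure (Or.inr (heY k))⟩, ?_, rfl⟩
    rw [mem_maximalIdeal, mem_nonunits_iff]
    intro hu
    have h1 : e k ∈ maximalIdeal B := by rw [← he]; exact Ideal.subset_span ⟨k, rfl⟩
    exact (mem_nonunits_iff.1 ((mem_maximalIdeal _).1 h1)) (hu.map C.subtype)
  have hle : (⊤ : Submodule C B) ≤ (1 : Submodule C B) ⊔ maximalIdeal C • ⊤ := by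
    intro z _
    obtain ⟨c, hc, hzc⟩ := hres z
    have h1 : z = c + (z - c) := by ring
    rw [h1]
    refine Submodule.add_mem_sup ?_ ?_
    · exact Submodule.mem_one.2 ⟨⟨c, hc⟩, rfl⟩
    · rw [← he] at hzc
      obtain ⟨a, ha⟩ := (Ideal.mem_span_range_iff_exists_fun).1 hzc
      rw [← ha]
      refine Submodule.sum_mem _ fun k _ => ?_
      obtain ⟨c', hc', hk⟩ := hmax k
      have h2 : a k * e k = c' • a k := by
        rw [← hk, mul_comm]
        rfl
      rw [h2]
      exact Submodule.smul_mem_smul hc' trivial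
  have h1 := Submodule.le_of_le_smul_of_le_jacobson_bot (R := C) (M := B) (Module.finite_def.1 hfin)
    (IsLocalRing.jacobson_eq_maximalIdeal (R := C) ⊥ bot_ne_top).ge hle
  obtain ⟨c, hc⟩ := Submodule.mem_one.1 (h1 (show x ∈ ⊤ from trivial))
  rw [← hc]
  exact c.2

/-- A `p`-basis of a field. -/
theorem FFT.basis {κ : Type u} [Field κ] {p : ℕ} [hp : Fact p.Prime] [CharP κ p] (h : FFT p κ) :
    ∃ (ι : Type) (_ : Fintype ι) (_ : DecidableEq ι) (b : ι → κ),
      (∀ z, z ∈ Subring.closure (pw p κ ∪ Set.range b)) ∧ PI p (⊥ : Ideal κ) b := by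
  classical
  obtain ⟨s, hs, hB⟩ := h
  let F : Subfield κ := (frobenius κ p).fieldRange
  have hF : ∀ y : κ, ∃ c : F, algebraMap F κ c = y ^ p := fun y => ⟨⟨y ^ p, ⟨y, rfl⟩⟩, rfl⟩
  have hft : Algebra.FiniteType F κ := by
    refine ⟨⟨hs.toFinset, ?_⟩⟩
    rw [eq_top_iff]
    intro z _
    have h1 : Subring.closure (pw p κ ∪ s) ≤ (Algebra.adjoin F (hs.toFinset : Set κ)).toSubring := by
      rw [Subring.closure_le]
      rintro z (⟨w, rfl⟩ | hz)
      · exact (Algebra.adjoin F (hs.toFinset : Set κ)).algebraMap_mem ⟨w ^ p, ⟨w, rfl⟩⟩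
      · exact Algebra.subset_adjoin (by simpa using hz)
    exact h1 (hB z)
  have hint : Algebra.IsIntegral F κ := by
    constructor
    intro z
    refine IsIntegral.of_pow hp.out.pos ?_
    exact isIntegral_algebraMap (x := (⟨z ^ p, ⟨z, rfl⟩⟩ : F))
  have hfin : Module.Finite F κ := Algebra.IsIntegral.finite
  obtain ⟨ι, _, _, b, hb, hind⟩ := pb (p := p) (κ := κ) (Module.finrank F κ) F le_rfl hF
  refine ⟨ι, inferInstance, inferInstance, b, fun z => ?_, ?_⟩
  · have h1 : Subring.closure (((algebraMap F κ).range : Set κ) ∪ Set.range b) ≤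
        Subring.closure (pw p κ ∪ Set.range b) := by
      rw [Subring.closure_le]
      rintro z (⟨⟨_, ⟨w, rfl⟩⟩, rfl⟩ | hz)
      · exact Subring.subset_closure (Or.inl ⟨w, rfl⟩)
      · exact Subring.subset_closure (Or.inr hz)
    exact h1 (hb z)
  · intro G hG α
    have h1 := hind (fun α => (⟨G α ^ p, ⟨G α, rfl⟩⟩ : F)) ((Submodule.mem_bot _).1 hG) α
    have h2 : G α ^ p = 0 := congrArg Subtype.val h1
    exact (Submodule.mem_bot _).2 (pow_eq_zero_iff hp.out.ne_zero |>.1 h2)

end Pool.Agent.TH188.QS
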