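import Pool.Agent.TH188.QS.FF4

/-!
# The Jacobian condition for F-finite regular domains
-/

set_option autoImplicit false
set_option linter.unusedVariables false
set_option linter.unusedSectionVars false

universe u v

namespace Pool.Agent.TH188.QS

open IsLocalRing Pool.Agent.W418.LU2

/-- Coordinate derivations at parameters. -/
theorem exists_der_local {p : ℕ} [hp : Fact p.Prime] {B : Type u} [CommRing B]
    [IsRegularLocalRing B] [CharP B p] (h : FFT p B) {r : ℕ} {e : Fin r → B} (he : Ind e)
    (hspan : Ideal.span (Set.range e) = maximalIdeal B) (k : Fin r) :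
    ∃ D : Derivation ℤ B B, ∀ l, D (e l) = if l = k then 1 else 0 := by
  classical
  have hκ : CharP (ResidueField B) p := (CharP.charP_iff_prime_eq_zero hp.out).2 (by
    rw [← map_natCast (residue B), CharP.cast_eq_zero, map_zero])
  obtain ⟨ι, _, _, b, hb, hind⟩ := (h.of_surjective (residue B) residue_surjective).basis
  choose z hz using fun i => residue_surjective (R := B) (b i)
  have hPI : PI p (maximalIdeal B) z := by
    intro G hG α
    have h1 := hind (fun α => residue B (G α)) (by
      rw [Submodule.mem_bot, ← (residue_eq_zero_iff _).2 hG, map_sum]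
      refine Finset.sum_congr rfl fun β _ => ?_
      rw [map_mul, map_pow, map_prod]
      congr 1
      refine Finset.prod_congr rfl fun i _ => ?_
      rw [map_pow, hz]) α
    exact (residue_eq_zero_iff _).1 ((Submodule.mem_bot _).1 h1)
  obtain ⟨ι', _, _, y, h1, h2, h3⟩ := exists_PI he hspan hPI r le_rfl
  have hemp : e '' {k | r ≤ (k : ℕ)} = ∅ := by
    rw [Set.image_eq_empty]
    ext k
    simp only [Set.mem_ofPred_eq, Set.mem_empty_iff_false, iff_false, not_le]
    exact k.2
  rw [hemp, Ideal.span_empty] at h1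
  choose j hj using fun k : Fin r => h2 k k.2
  have hle : Subring.closure (pw p (ResidueField B) ∪ Set.range b) ≤
      (Subring.closure (pw p B ∪ Set.range y)).map (residue B) := by
    rw [Subring.closure_le]
    rintro _ (⟨w, rfl⟩ | ⟨i, rfl⟩)
    · obtain ⟨w', rfl⟩ := residue_surjective (R := B) w
      exact ⟨w' ^ p, Subring.subset_closure (Or.inl ⟨w', rfl⟩), map_pow _ _ _⟩
    · obtain ⟨i', hi'⟩ := h3 i
      exact ⟨y i', Subring.subset_closure (Or.inr ⟨i', rfl⟩), by rw [hi', hz]⟩
  have hcl : ∀ x : B, x ∈ Subring.closure (pw p B ∪ Set.range y) :=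
    FFT.nak hp.out.ne_zero h hspan (Y := Set.range y) (fun k => ⟨j k, hj k⟩) (fun x => by
      obtain ⟨c, hc, hcx⟩ := hle (hb (residue B x))
      refine ⟨c, hc, ?_⟩
      rw [← residue_eq_zero_iff, map_sub, hcx, sub_self])
  obtain ⟨D, hD⟩ := exists_der y h1 hcl (j k)
  refine ⟨D, fun l => ?_⟩
  rw [← hj l, hD]
  by_cases hlk : l = k
  · rw [hlk, if_pos rfl, if_pos rfl]
  · rw [if_neg hlk, if_neg]
    intro heq
    have h4 : e l = e k := by rw [← hj l, ← hj k, heq]
    refine not_mem_span he {k} l (fun h => hlk h) ?_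
    rw [h4]
    exact Ideal.subset_span ⟨k, rfl, rfl⟩

/-- Derivations of a localization, up to a denominator. -/
theorem FFT.der {p : ℕ} [hp : Fact p.Prime] {S : Type u} [CommRing S] [IsDomain S] [CharP S p]
    (h : FFT p S) (I : Ideal S) [I.IsPrime] {O : Type u} [CommRing O] [Algebra S O]
    [IsLocalization I.primeCompl O] (D : Derivation ℤ O O) :
    ∃ (u : I.primeCompl) (D' : Derivation ℤ S S), ∀ s,
      algebraMap S O (D' s) = algebraMap S O u * D (algebraMap S O s) := by
  classical
  have hinj : Function.Injective (algebraMap S O) :=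
    IsLocalization.injective O I.primeCompl_le_nonZeroDivisors
  have hchar : (p : O) = 0 := by rw [← map_natCast (algebraMap S O), CharP.cast_eq_zero, map_zero]
  obtain ⟨T, hT, hS⟩ := h
  obtain ⟨u, hu⟩ := IsLocalization.exist_integer_multiples_of_finset I.primeCompl
    (hT.toFinset.image fun t => D (algebraMap S O t))
  have hall : ∀ s, ∃ s', algebraMap S O s' = algebraMap S O u * D (algebraMap S O s) := by
    intro s
    have hs := hS s
    induction hs using Subring.closure_induction with
    | mem x hx =>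
      rcases hx with ⟨w, rfl⟩ | hx
      · refine ⟨0, ?_⟩
        have h1 : D (algebraMap S O (w ^ p)) = 0 := by
          rw [map_pow, Derivation.leibniz_pow, nsmul_eq_mul, hchar, zero_mul]
        rw [h1, mul_zero, map_zero]
      · obtain ⟨s', hs'⟩ := hu (D (algebraMap S O x)) (Finset.mem_image.2
          ⟨x, hT.mem_toFinset.2 hx, rfl⟩)
        refine ⟨s', ?_⟩
        rw [hs']
        exact Algebra.smul_def _ _
    | zero => exact ⟨0, by rw [map_zero, map_zero, mul_zero]⟩
    | one => exact ⟨0, by rw [map_one, map_zero, Derivation.map_one_eq_zero, mul_zero]⟩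
    | add x y hx hy h1 h2 =>
      obtain ⟨a, ha⟩ := h1
      obtain ⟨b, hb⟩ := h2
      exact ⟨a + b, by rw [map_add, ha, hb, map_add, map_add, mul_add]⟩
    | neg x hx h1 =>
      obtain ⟨a, ha⟩ := h1
      exact ⟨-a, by rw [map_neg, ha, map_neg, map_neg, mul_neg]⟩
    | mul x y hx hy h1 h2 =>
      obtain ⟨a, ha⟩ := h1
      obtain ⟨b, hb⟩ := h2
      refine ⟨x * b + y * a, ?_⟩
      rw [map_add, map_mul, map_mul, ha, hb, map_mul, Derivation.leibniz, smul_eq_mul, smul_eq_mul]
      ring
  choose d hd using hall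
  let D₀ : S →+ S :=
    { toFun := d
      map_zero' := hinj (by rw [hd, map_zero, map_zero, mul_zero])
      map_add' := fun x y => hinj (by rw [hd, map_add, map_add, map_add, hd, hd, mul_add]) }
  refine ⟨u, Derivation.mk' D₀.toIntLinearMap ?_, fun s => hd s⟩
  intro a b
  change d (a * b) = a • d b + b • d a
  apply hinj
  rw [hd, map_mul, Derivation.leibniz, smul_eq_mul, smul_eq_mul, smul_eq_mul, smul_eq_mul, map_add,
    map_mul, map_mul, hd, hd]
  ring

theorem wj_aux {p : ℕ} [hp : Fact p.Prime] {S K : Type u} [CommRing S] [IsDomain S]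
    [CharP S p] (h : FFT p S) [Field K] (φ : S →+* K) (I : Ideal S) [hIp : I.IsPrime]
    (hI : RingHom.ker φ = I) {O : Type u} [CommRing O] [Algebra S O] [IsLocalization.AtPrime O I]
    [hO : IsRegularLocalRing O] (hFO : FFT p O) : WJ φ := by
  classical
  subst hI
  let I := RingHom.ker φ
  have hloc : IsLocalization I.primeCompl O := inferInstanceAs (IsLocalization.AtPrime O I)
  have hmem : ∀ a : S, algebraMap S O a ∈ maximalIdeal O ↔ a ∈ I := fun a =>
    IsLocalization.AtPrime.to_map_mem_maximal_iff O I a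
  have hu : ∀ y : I.primeCompl, IsUnit (φ y) := fun y =>
    isUnit_iff_ne_zero.2 fun h => y.2 (RingHom.mem_ker.2 h)
  let ψ : O →+* K := IsLocalization.lift (M := I.primeCompl) hu
  have hψ : ∀ a : S, ψ (algebraMap S O a) = φ a := fun a => IsLocalization.lift_eq hu a
  have hcO : CharP O p := (CharP.charP_iff_prime_eq_zero hp.out).2 (by
    rw [← map_natCast (algebraMap S O), CharP.cast_eq_zero, map_zero])
  have h0 : Pool.Agent.W418.LU2.Ind (Empty.elim : Empty → O) :=
    ⟨fun i => i.elim, fun _ _ i => i.elim⟩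
  obtain ⟨r, w, hw, hd⟩ := h0.extend
  have hrange : Set.range (Sum.elim (Empty.elim : Empty → O) w) = Set.range w := by
    ext y
    constructor
    · rintro ⟨i | i, rfl⟩
      · exact i.elim
      · exact ⟨i, rfl⟩
    · rintro ⟨i, rfl⟩
      exact ⟨Sum.inr i, rfl⟩
  rw [hrange] at hw
  have hwI : Pool.Agent.W418.LU2.Ind w := by
    refine Pool.Agent.W418.LU2.ind_of_span hw ?_
    rw [hd, Fintype.card_fin, Fintype.card_empty, zero_add]
  choose fs hfs using fun i => IsLocalization.surj I.primeCompl (w i)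
  let f : Fin r → S := fun i => (fs i).1
  let t : Fin r → I.primeCompl := fun i => (fs i).2
  have hwf : ∀ i, w i * algebraMap S O (t i : S) = algebraMap S O (f i) := hfs
  have hfI : ∀ i, f i ∈ I := by
    intro i
    rw [← hmem, ← hwf i]
    exact Ideal.mul_mem_right _ _ (hwI.1 i)
  have hgen : ∀ s, φ s = 0 → ∃ t, φ t ≠ 0 ∧ t * s ∈ Ideal.span (Set.range f) := by
    intro s hs
    have h1 : algebraMap S O s ∈ (Ideal.span (Set.range f)).map (algebraMap S O) := by
      have h2 : algebraMap S O s ∈ maximalIdeal O := (hmem s).2 (RingHom.mem_ker.2 hs)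
      rw [← hw] at h2
      refine (Ideal.span_le.2 ?_) h2
      rintro _ ⟨i, rfl⟩
      have h3 : algebraMap S O (f i) ∈ (Ideal.span (Set.range f)).map (algebraMap S O) :=
        Ideal.mem_map_of_mem _ (Ideal.subset_span ⟨i, rfl⟩)
      rw [← hwf i] at h3
      exact (Ideal.mul_unit_mem_iff_mem _ (IsLocalization.map_units O (t i))).1 h3
    obtain ⟨⟨⟨y, hy⟩, u⟩, hyu⟩ := (IsLocalization.mem_map_algebraMap_iff I.primeCompl O).1 h1
    change algebraMap S O s * algebraMap S O (u : S) = algebraMap S O y at hyu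
    rw [← map_mul] at hyu
    obtain ⟨c, hc⟩ := (IsLocalization.eq_iff_exists I.primeCompl O).1 hyu
    refine ⟨(c : S) * u, ?_, ?_⟩
    · rw [map_mul]
      exact mul_ne_zero (fun h => c.2 (RingHom.mem_ker.2 h)) fun h => u.2 (RingHom.mem_ker.2 h)
    · have h8 : (c : S) * u * s = c * y := by rw [← hc]; ring
      rw [h8]
      exact Ideal.mul_mem_left _ _ hy
  choose D hD using exists_der_local hFO hwI hw
  choose u D' hD' using fun k => h.der I (O := O) (D k)
  have hw0 : ∀ i, ψ (w i) = 0 := by
    intro i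
    by_contra hne
    have h1 := hwf i
    have h2 := congrArg ψ h1
    rw [map_mul, hψ, hψ, RingHom.mem_ker.1 (hfI i)] at h2
    exact (mul_ne_zero hne fun h => (t i).2 (RingHom.mem_ker.2 h)) h2
  refine ⟨r, f, D', fun i => RingHom.mem_ker.1 (hfI i), hgen, ?_⟩
  have hmat : (Matrix.of fun i j => φ (D' j (f i))) =
      Matrix.diagonal fun i => φ (u i : S) * φ (t i : S) := by
    ext i j
    rw [Matrix.of_apply, ← hψ, hD', ← hwf i, Derivation.leibniz, hD, map_mul, hψ, map_add,
      smul_eq_mul, smul_eq_mul, map_mul, map_mul, hw0, zero_mul, zero_add, hψ]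
    by_cases hij : i = j
    · subst hij
      rw [if_pos rfl, map_one, mul_one, Matrix.diagonal_apply_eq]
    · rw [if_neg hij, map_zero, mul_zero, mul_zero, Matrix.diagonal_apply_ne _ hij]
  rw [hmat, Matrix.det_diagonal]
  exact Finset.prod_ne_zero_iff.2 fun i _ => mul_ne_zero
    (fun h => (u i).2 (RingHom.mem_ker.2 h)) fun h => (t i).2 (RingHom.mem_ker.2 h)

/-- The weak Jacobian condition for `F`-finite regular domains. -/
theorem wj_ff {p : ℕ} [hp : Fact p.Prime] {S K : Type u} [CommRing S] [IsDomain S]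
    [IsRegularRing S] [CharP S p] (h : FFT p S) [Field K] (φ : S →+* K) : WJ φ := by
  have hIp : (RingHom.ker φ).IsPrime := RingHom.ker_isPrime _
  have hO : IsRegularLocalRing (Localization.AtPrime (RingHom.ker φ)) :=
    IsRegularRing.isRegularLocalRing_localization _
  exact wj_aux h φ (RingHom.ker φ) rfl (O := Localization.AtPrime (RingHom.ker φ))
    (h.loc hp.out.ne_zero _)

/-- `F`-finite regular domains. -/
theorem hj_ff {p : ℕ} [hp : Fact p.Prime] {R : Type u} [CommRing R] [IsDomain R]
    [IsRegularRing R] [CharP R p] (h : FFT p R) : HJ R := by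
  intro L _ ρ T hT hfr
  obtain ⟨n, t, rfl⟩ := exists_fin_range hT
  exact ⟨MvPolynomial (Fin n) R, inferInstance, inferInstance, inferInstance,
    MvPolynomial.eval₂Hom ρ t, range_eval ρ t, wj_ff (h.poly n) _⟩

end Pool.Agent.TH188.QS
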