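import Pool.Agent.TH188.QS.Main

/-!
# The first cotangent homology of extensions of perfect fields
-/

set_option autoImplicit false
set_option linter.unusedVariables false
set_option linter.unusedSectionVars false

universe u v

namespace Pool.Agent.TH188.QS

open KaehlerDifferential TensorProduct MvPolynomial

theorem h1_perfect {k : Type v} {L : Type u} [Field k] [PerfectField k] [Field L] [Algebra k L] :
    Subsingleton (Algebra.H1Cotangent k L) := by
  classical
  let _ : Algebra (MvPolynomial L k) L := (aeval (id : L → L) : MvPolynomial L k →ₐ[k] L).toAlgebra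
  have halg : ∀ p : MvPolynomial L k, algebraMap (MvPolynomial L k) L p = aeval (id : L → L) p :=
    fun p => rfl
  have ht : IsScalarTower k (MvPolynomial L k) L := IsScalarTower.of_algebraMap_eq fun a => by
    rw [halg, MvPolynomial.algebraMap_eq, aeval_C]
  have hs : Function.Surjective (algebraMap (MvPolynomial L k) L) := fun z => ⟨X z, by
    rw [halg, aeval_X]; rfl⟩
  rw [← Algebra.FormallySmooth.kerCotangentToTensor_injective_iff (R := k) hs]
  rw [injective_iff_map_eq_zero]
  intro ξ hξ
  obtain ⟨⟨x, hx⟩, rfl⟩ := Ideal.toCotangent_surjective _ ξ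
  rw [Ideal.toCotangent_eq_zero]
  change x ∈ RingHom.ker (algebraMap (MvPolynomial L k) L) ^ 2
  rw [kerCotangentToTensor_toCotangent] at hξ
  change (1 : L) ⊗ₜ[MvPolynomial L k] (KaehlerDifferential.D k (MvPolynomial L k) x) = 0 at hξ
  -- the partial derivatives vanish
  have hpd : ∀ t : L, algebraMap (MvPolynomial L k) L (pderiv t x) = 0 := by
    intro t
    let d : Derivation k (MvPolynomial L k) L :=
      (Algebra.linearMap (MvPolynomial L k) L).compDer (pderiv t)
    let ℓ : L ⊗[MvPolynomial L k] Ω[MvPolynomial L k⁄k] →ₗ[MvPolynomial L k] L :=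
      TensorProduct.lift ((LinearMap.mul (MvPolynomial L k) L).compl₂ d.liftKaehlerDifferential)
    have h1 := congrArg ℓ hξ
    rw [map_zero] at h1
    have h2 : ℓ ((1 : L) ⊗ₜ[MvPolynomial L k] (KaehlerDifferential.D k (MvPolynomial L k) x)) =
        d x := by
      change (1 : L) * d.liftKaehlerDifferential (KaehlerDifferential.D k (MvPolynomial L k) x) = _
      rw [one_mul, Derivation.liftKaehlerDifferential_comp_D]
    rw [h2] at h1
    exact h1
  obtain ⟨T, q, rfl⟩ := exists_finset_rename x
  -- the finitely generated subfield
  let M : IntermediateField k L := IntermediateField.adjoin k (T : Set L)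
  have hTM : ∀ t : T, (t : L) ∈ M := fun t => IntermediateField.subset_adjoin k _ t.2
  let _ : Algebra (MvPolynomial T k) M :=
    (aeval (fun t : T => (⟨t, hTM t⟩ : M)) : MvPolynomial T k →ₐ[k] M).toAlgebra
  have halg' : ∀ p : MvPolynomial T k, algebraMap (MvPolynomial T k) M p =
      aeval (fun t : T => (⟨t, hTM t⟩ : M)) p := fun p => rfl
  have ht' : IsScalarTower k (MvPolynomial T k) M := IsScalarTower.of_algebraMap_eq fun a => by
    rw [halg', MvPolynomial.algebraMap_eq, aeval_C]
  have hcomp : ∀ p : MvPolynomial T k, ((algebraMap (MvPolynomial T k) M p : M) : L) =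
      algebraMap (MvPolynomial L k) L (rename Subtype.val p) := by
    intro p
    rw [halg, halg', aeval_rename]
    have h1 : M.val (aeval (fun t : T => (⟨t, hTM t⟩ : M)) p) =
        aeval (id ∘ (Subtype.val : T → L)) p := by
      rw [← AlgHom.comp_apply, comp_aeval]
      rfl
    exact h1
  have hker : ∀ p : MvPolynomial T k, algebraMap (MvPolynomial T k) M p = 0 ↔
      algebraMap (MvPolynomial L k) L (rename Subtype.val p) = 0 := by
    intro p
    rw [← hcomp]
    exact ⟨fun h => by rw [h]; rfl, fun h => Subtype.ext h⟩
  have hess : Algebra.EssFiniteType k M := by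
    rw [IntermediateField.essFiniteType_iff]
    exact ⟨T, rfl⟩
  have hfs : Algebra.FormallySmooth k M := Algebra.FormallySmooth.of_perfectField
  have hfr : ∀ z : M, ∃ a b : MvPolynomial T k, algebraMap (MvPolynomial T k) M b ≠ 0 ∧
      z * algebraMap (MvPolynomial T k) M b = algebraMap (MvPolynomial T k) M a := by
    intro z
    have hrange : Set.range (fun t : T => (t : L)) = (T : Set L) := by
      ext t
      simp
    have hz : (z : L) ∈ IntermediateField.adjoin k (Set.range fun t : T => (t : L)) := by
      rw [hrange]
      exact z.2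
    rw [IntermediateField.mem_adjoin_range_iff] at hz
    obtain ⟨a, b, hab⟩ := hz
    have hev : ∀ p : MvPolynomial T k, ((algebraMap (MvPolynomial T k) M p : M) : L) =
        aeval (fun t : T => (t : L)) p := by
      intro p
      rw [hcomp, halg, aeval_rename]
      rfl
    by_cases hb : algebraMap (MvPolynomial T k) M b = 0
    · refine ⟨0, 1, by rw [map_one]; exact one_ne_zero, ?_⟩
      rw [map_one, mul_one, map_zero]
      apply Subtype.ext
      rw [hab, ← hev b, hb]
      exact div_zero _
    · refine ⟨a, b, hb, ?_⟩
      apply Subtype.ext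
      change (z : L) * ((algebraMap (MvPolynomial T k) M b : M) : L) = _
      rw [hab, ← hev a, ← hev b, div_mul_cancel₀]
      exact fun h => hb (Subtype.ext h)
  have hd : KaehlerDifferential.D k (MvPolynomial T k) q ∈
      RingHom.ker (algebraMap (MvPolynomial T k) M) •
        (⊤ : Submodule (MvPolynomial T k) (Ω[MvPolynomial T k⁄k])) := by
    have h1 : ∀ p : MvPolynomial T k, KaehlerDifferential.D k (MvPolynomial T k) p =
        ∑ t : T, pderiv t p • KaehlerDifferential.D k (MvPolynomial T k) (X t) := by
      intro p
      induction p using MvPolynomial.induction_on with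
      | C a =>
        have h2 : KaehlerDifferential.D k (MvPolynomial T k) (C a) = 0 :=
          Derivation.map_algebraMap _ a
        rw [h2, Finset.sum_eq_zero]
        intro t _
        rw [pderiv_C, zero_smul]
      | add p p' hp hp' =>
        rw [map_add, hp, hp', ← Finset.sum_add_distrib]
        exact Finset.sum_congr rfl fun t _ => by rw [map_add, add_smul]
      | mul_X p i hp =>
        rw [Derivation.leibniz, hp]
        have h2 : ∀ t : T, pderiv t (p * X i) = X i * pderiv t p + p * pderiv t (X i) := by
          intro t
          rw [Derivation.leibniz, smul_eq_mul, smul_eq_mul, add_comm]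
        simp_rw [h2, add_smul, Finset.sum_add_distrib, mul_smul, ← Finset.smul_sum]
        rw [add_comm]
        congr 1
        congr 1
        rw [Finset.sum_eq_single i]
        · rw [pderiv_X_self, one_smul]
        · intro t _ hti
          rw [pderiv_X_of_ne hti.symm, zero_smul]
        · intro h; exact absurd (Finset.mem_univ _) h
    rw [h1]
    refine Submodule.sum_mem _ fun t _ => Submodule.smul_mem_smul ?_ trivial
    rw [RingHom.mem_ker, hker, ← pderiv_rename Subtype.val_injective]
    exact hpd t
  obtain ⟨s, hs0, hsx⟩ := sq_of_D hfs.subsingleton_h1Cotangent hfr ((hker q).2 hx) hd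
  have hmap : (RingHom.ker (algebraMap (MvPolynomial T k) M)).map
      (rename (R := k) (Subtype.val : T → L)).toRingHom ≤
      RingHom.ker (algebraMap (MvPolynomial L k) L) := by
    rw [Ideal.map_le_iff_le_comap]
    intro p hp
    exact (hker p).1 hp
  have h2 : rename Subtype.val s * rename Subtype.val q ∈
      RingHom.ker (algebraMap (MvPolynomial L k) L) ^ 2 := by
    rw [← map_mul]
    refine Ideal.pow_right_mono hmap 2 ?_
    rw [← Ideal.map_pow]
    exact Ideal.mem_map_of_mem _ hsx
  have hc : algebraMap (MvPolynomial L k) L (rename Subtype.val s) ≠ 0 := fun h =>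
    hs0 ((hker s).2 h)
  set c := algebraMap (MvPolynomial L k) L (rename Subtype.val s) with hcdef
  have h3 : X c⁻¹ * rename Subtype.val s - 1 ∈ RingHom.ker (algebraMap (MvPolynomial L k) L) := by
    rw [RingHom.mem_ker, map_sub, map_mul, map_one, halg (X c⁻¹), aeval_X, ← hcdef]
    change c⁻¹ * c - 1 = 0
    rw [inv_mul_cancel₀ hc, sub_self]
  have h4 : rename Subtype.val q = X c⁻¹ * (rename Subtype.val s * rename Subtype.val q) -
      (X c⁻¹ * rename Subtype.val s - 1) * rename Subtype.val q := by ring
  rw [h4]
  refine Ideal.sub_mem _ (Ideal.mul_mem_left _ _ h2) ?_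
  rw [pow_two]
  exact Ideal.mul_mem_mul h3 hx

end Pool.Agent.TH188.QS
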