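import Pool.Agent.TH188.QS.Comp3
import Pool.Agent.TH188.QS.H1

/-!
# Uniformization of discrete valuations of finite rank
-/

set_option autoImplicit false
set_option linter.unusedVariables false
set_option linter.unusedSectionVars false

universe u v

namespace Pool.Agent.TH188.QS

open IsLocalRing Pool.Agent.W418.LU2

/-- The weak Jacobian condition at the kernel of `φ`. -/
def WJ {S K : Type u} [CommRing S] [Field K] (φ : S →+* K) : Prop :=
  ∃ (r : ℕ) (f : Fin r → S) (D : Fin r → Derivation ℤ S S), (∀ i, φ (f i) = 0) ∧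
    (∀ s, φ s = 0 → ∃ t, φ t ≠ 0 ∧ t * s ∈ Ideal.span (Set.range f)) ∧
    (Matrix.of fun i j => φ (D j (f i))).det ≠ 0

/-- The domains of finite type over `R` are quotients of regular domains by primes at which the
weak Jacobian condition holds. -/
def HJ (R : Type u) [CommRing R] : Prop :=
  ∀ (L : Type u) [Field L] (ρ : R →+* L) (T : Set L), T.Finite →
    (∀ z : L, Fr (Subring.closure ((ρ.range : Set L) ∪ T)) z) →
    ∃ (S : Type u) (_ : CommRing S) (_ : IsDomain S) (_ : IsRegularRing S) (φ : S →+* L),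
      φ.range = Subring.closure ((ρ.range : Set L) ∪ T) ∧ WJ φ

/-- The sequence of quadratic transforms. -/
def qseq {K : Type u} [Field K] (V : ValuationSubring K) (A : Subring K) : ℕ → Subring K
  | 0 => lo V.toSubring A
  | n + 1 => qt V.toSubring (qseq V A n)

/-- Uniformization by quadratic transforms, with the Jacobian condition. -/
theorem gp_wj {S K : Type u} [CommRing S] [IsDomain S] [IsRegularRing S] [Field K] {φ : S →+* K}
    (hφ : WJ φ) {V : ValuationSubring K} (hφV : ∀ s, φ s ∈ V)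
    (hne0 : ∃ y ∈ φ.range, y ≠ 0 ∧ V.valuation y < 1) (hdv : Dv V (qseq V φ.range)) :
    GP V φ.range := by
  obtain ⟨r, f, D, hf, hgen, hdet⟩ := hφ
  have hA : φ.range ≤ V.toSubring := by
    rintro _ ⟨s, rfl⟩
    exact hφV s
  have hnoe : IsNoetherianRing φ.range := isNoetherianRing_of_surjective _ _ φ.rangeRestrict
    φ.rangeRestrict_surjective
  obtain ⟨-, hmi⟩ := seq_fg (Q := qseq V φ.range) hA hne0 rfl (fun n => rfl)
  have hD : ∀ j, Der φ (fun s => φ (D j s)) := fun j =>
    { add := fun a b => by rw [map_add, map_add]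
      mul := fun a b => by
        rw [Derivation.leibniz, smul_eq_mul, smul_eq_mul, map_add, map_mul, map_mul] }
  obtain ⟨m, hm⟩ := exists_regular (Q := qseq V φ.range) hφV hD (C := 1) one_ne_zero
    (fun j s => by rw [one_mul]; exact hφV _) hf hgen hdet rfl (fun n => rfl) hmi hdv
  exact gp_of hA hne0 rfl (fun n => rfl) hdv m hm

/-- The fraction field in `K`. -/
theorem exists_frac {K : Type u} [Field K] (A : Subring K) : ∃ (L : Type u) (_ : Field L)
    (j : L →+* K) (s : A →+* L), (∀ a, j (s a) = a) ∧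
      ∀ z : L, ∃ a b : A, b ≠ 0 ∧ z = s a * (s b)⁻¹ := by
  let j : FractionRing A →+* K := IsLocalization.lift (M := nonZeroDivisors A) (g := A.subtype) (by
    intro y
    exact isUnit_iff_ne_zero.2 fun h => nonZeroDivisors.ne_zero y.2 (Subtype.ext h))
  refine ⟨FractionRing A, inferInstance, j, algebraMap A (FractionRing A),
    fun a => IsLocalization.lift_eq _ a, fun z => ?_⟩
  obtain ⟨a, b, hb, rfl⟩ := IsFractionRing.div_surjective (A := A) z
  exact ⟨a, b, nonZeroDivisors.ne_zero hb, div_eq_mul_inv _ _⟩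

/-- Uniformization by quadratic transforms. -/
theorem gp_div {R : Type u} [CommRing R] (hR : HJ R) {K : Type u} [Field K] {V : ValuationSubring K}
    (ρ : R →+* K) {T : Set K} (hT : T.Finite)
    (hAV : Subring.closure ((ρ.range : Set K) ∪ T) ≤ V.toSubring)
    (hdv : Dv V (qseq V (Subring.closure ((ρ.range : Set K) ∪ T)))) :
    GP V (Subring.closure ((ρ.range : Set K) ∪ T)) ∧
      IsNoetherianRing (Subring.closure ((ρ.range : Set K) ∪ T)) := by
  classical
  set A := Subring.closure ((ρ.range : Set K) ∪ T) with hA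
  obtain ⟨L, _, j, σ, hj, hLfr⟩ := exists_frac A
  have hji : Function.Injective j := j.injective
  have hρA : ∀ x : R, ρ x ∈ A := fun x => Subring.subset_closure (Or.inl ⟨x, rfl⟩)
  let ρ' : R →+* L := σ.comp (ρ.codRestrict A hρA)
  have hjρ : ∀ x, j (ρ' x) = ρ x := fun x => hj _
  let T' : Set L := {z | ∃ t : A, (t : K) ∈ T ∧ z = σ t}
  have hTT' : T' ⊆ (fun t : T => σ ⟨t, Subring.subset_closure (Or.inr t.2)⟩) ''
      Set.univ := by
    rintro _ ⟨t, ht, rfl⟩
    exact ⟨⟨t, ht⟩, trivial, rfl⟩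
  have hTfin : Finite T := hT
  have hT'f : T'.Finite := ((Set.finite_univ).image _).subset hTT'
  -- the image of `A`
  have hcl : (Subring.closure ((ρ'.range : Set L) ∪ T')).map j = A := by
    rw [RingHom.map_closure, hA]
    congr 1
    ext z
    constructor
    · rintro ⟨w, ⟨x, rfl⟩ | ⟨t, ht, rfl⟩, rfl⟩
      · exact Or.inl ⟨x, (hjρ x).symm⟩
      · right
        rw [hj]
        exact ht
    · rintro (⟨x, rfl⟩ | hz)
      · exact ⟨ρ' x, Or.inl ⟨x, rfl⟩, hjρ x⟩
      · exact ⟨σ ⟨z, Subring.subset_closure (Or.inr hz)⟩, Or.inr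
          ⟨⟨z, Subring.subset_closure (Or.inr hz)⟩, hz, rfl⟩, hj _⟩
  have hmemA : ∀ a : A, σ a ∈ Subring.closure ((ρ'.range : Set L) ∪ T') := by
    intro a
    have h1 : (a : K) ∈ (Subring.closure ((ρ'.range : Set L) ∪ T')).map j := by
      rw [hcl]; exact a.2
    obtain ⟨w, hw, hwa⟩ := h1
    have h2 : w = σ a := hji (by rw [hwa, hj])
    rwa [← h2]
  have hfr : ∀ z : L, Fr (Subring.closure ((ρ'.range : Set L) ∪ T')) z := by
    intro z
    obtain ⟨a, b, hb, rfl⟩ := hLfr z
    have hb0 : σ b ≠ 0 := by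
      intro h
      apply hb
      apply Subtype.ext
      rw [← hj b, h, map_zero]
      rfl
    exact ⟨_, hmemA a, _, hmemA b, hb0, rfl⟩
  obtain ⟨S, _, _, _, φ, hφr, r, f, D, hf, hgen, hdet⟩ := hR L ρ' T' hT'f hfr
  have hrange : (j.comp φ).range = A := by
    rw [← hcl, ← hφr]
    ext z
    constructor
    · rintro ⟨s, rfl⟩
      exact ⟨φ s, ⟨s, rfl⟩, rfl⟩
    · rintro ⟨_, ⟨s, rfl⟩, rfl⟩
      exact ⟨s, rfl⟩
  have hwj : WJ (j.comp φ) := by
    refine ⟨r, f, D, fun i => ?_, fun s hs => ?_, ?_⟩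
    · rw [RingHom.comp_apply, hf, map_zero]
    · have h1 : φ s = 0 := hji (by rw [map_zero]; exact hs)
      obtain ⟨t, ht, hts⟩ := hgen s h1
      exact ⟨t, fun h => ht (hji (by rw [map_zero]; exact h)), hts⟩
    · have h1 : (Matrix.of fun i k => (j.comp φ) (D k (f i))) =
          j.mapMatrix (Matrix.of fun i k => φ (D k (f i))) := by
        ext i k
        rfl
      rw [h1, ← RingHom.map_det]
      exact fun h => hdet (hji (by rw [map_zero]; exact h))
  have hnoe : IsNoetherianRing (j.comp φ).range := isNoetherianRing_of_surjective _ _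
    (j.comp φ).rangeRestrict (j.comp φ).rangeRestrict_surjective
  rw [hrange] at hnoe
  refine ⟨?_, hnoe⟩
  by_cases hne0 : ∃ y ∈ A, y ≠ 0 ∧ V.valuation y < 1
  · have h1 := gp_wj (V := V) hwj (fun s => hAV (by rw [← hrange]; exact ⟨s, rfl⟩))
      (by rw [hrange]; exact hne0) (by rw [hrange]; exact hdv)
    rwa [hrange] at h1
  · push Not at hne0
    refine gp_trivial hAV fun y hy hy0 => ?_
    have h1 := hne0 y hy hy0
    rw [← V.valuation_le_one_iff, map_inv₀]
    exact inv_le_one_of_one_le₀ h1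

/-- `V` is the composite of the valuation ring `V₁` and the valuation ring `W` of its residue
field. -/
def Cmp {K : Type u} [Field K] (V V₁ : ValuationSubring K)
    (W : ValuationSubring (ResidueField V₁)) : Prop :=
  ∀ z : K, z ∈ V ↔ ∃ hz : z ∈ V₁, residue V₁ ⟨z, hz⟩ ∈ W

/-- Discrete valuation rings of rank `n`. -/
def DR : ℕ → ∀ {K : Type u} [Field K], ValuationSubring K → Prop
  | 0, _, _, V => V = ⊤
  | n + 1, _, _, V => ∃ (V₁ : ValuationSubring _) (W : ValuationSubring (ResidueField V₁)),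
      IsDiscreteValuationRing V₁ ∧ DR n W ∧ Cmp V V₁ W

lemma qseq_le {K : Type u} [Field K] {V : ValuationSubring K} {A : Subring K}
    (hA : A ≤ V.toSubring) (n : ℕ) : qseq V A n ≤ V.toSubring := by
  induction n with
  | zero => exact lo_le hA
  | succ n ih => exact qt_le ih

/-- Uniformization of discrete valuations of finite rank. -/
theorem gp_disc {R : Type u} [CommRing R] (hR : HJ R) (n : ℕ) : ∀ {K : Type u} [Field K]
    (V : ValuationSubring K), DR n V → ∀ (ρ : R →+* K) (T : Set K), T.Finite →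
    Subring.closure ((ρ.range : Set K) ∪ T) ≤ V.toSubring →
    GP V (Subring.closure ((ρ.range : Set K) ∪ T)) := by
  classical
  induction n with
  | zero =>
    intro K _ V hV ρ T hT hAV
    have hV' : V = ⊤ := hV
    refine gp_trivial hAV fun y _ _ => ?_
    rw [hV']
    trivial
  | succ n ih =>
    intro K _ V hV ρ T hT hAV
    obtain ⟨V₁, W, hV₁, hW, hVW⟩ := hV
    set A := Subring.closure ((ρ.range : Set K) ∪ T) with hA
    have hVV : V ≤ V₁ := fun z hz => ((hVW z).1 hz).1
    have hAV₁ : A ≤ V₁.toSubring := fun a ha => hVV (hAV ha)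
    obtain ⟨h₁, hnoe⟩ := gp_div hR (V := V₁) ρ hT hAV₁ (dv_of_dvr hV₁ fun n => qseq_le hAV₁ n)
    refine gp_comp hVW hAV h₁ fun T' hT' hT'V => ?_
    have hρV₁ : ∀ x : R, ρ x ∈ V₁ := fun x => hAV₁ (Subring.subset_closure (Or.inl ⟨x, rfl⟩))
    let ρ₁ : R →+* V₁ := ρ.codRestrict V₁.toSubring hρV₁
    let ρ' : R →+* ResidueField V₁ := (residue V₁).comp ρ₁
    have hρ' : ∀ x, Pr (residue V₁) (ρ x) (ρ' x) := fun x => res_pr (hρV₁ x)
    have hTV₁ : ∀ t ∈ T ∪ T', t ∈ V₁ := by
      rintro t (ht | ht)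
      · exact hAV₁ (Subring.subset_closure (Or.inr ht))
      · exact hVV (hT'V t ht)
    let T₂ : Set (ResidueField V₁) := {w | ∃ t ∈ T ∪ T', Pr (residue V₁) t w}
    have hT₂f : T₂.Finite := by
      have h1 : T₂ ⊆ (fun t : K => if ht : t ∈ V₁ then residue V₁ ⟨t, ht⟩ else 0) ''
          (T ∪ T') := by
        rintro w ⟨t, ht, htw⟩
        refine ⟨t, ht, ?_⟩
        simp only [dif_pos (hTV₁ t ht)]
        exact (res_pr (hTV₁ t ht)).unique htw
      exact ((hT.union hT').image _).subset h1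
    have him : im (residue V₁) (Subring.closure ((A : Set K) ∪ T')) =
        Subring.closure ((ρ'.range : Set (ResidueField V₁)) ∪ T₂) := by
      rw [hA, closure_closure_union, Set.union_assoc]
      refine im_closure ?_ ?_
      · rintro u (⟨x, rfl⟩ | hu)
        · exact ⟨ρ' x, Or.inl ⟨x, rfl⟩, hρ' x⟩
        · exact ⟨_, Or.inr ⟨u, hu, res_pr (hTV₁ u hu)⟩, res_pr (hTV₁ u hu)⟩
      · rintro w (⟨x, rfl⟩ | ⟨t, ht, h⟩)
        · exact ⟨ρ x, Or.inl ⟨x, rfl⟩, hρ' x⟩
        · exact ⟨t, Or.inr ht, h⟩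
    rw [him]
    refine ih W hW ρ' T₂ hT₂f ?_
    rw [← him]
    rintro w ⟨z, hz, hzw⟩
    have hzV : z ∈ V := cl_le hAV hT'V hz
    obtain ⟨h1, h2⟩ := (hVW z).1 hzV
    rw [hzw.unique (res_pr h1)]
    exact h2

end Pool.Agent.TH188.QS
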