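import Pool.Agent.TH188.QS.Jac

/-!
# Uniformization of valuations with divergent quadratic sequences
-/

set_option autoImplicit false
set_option linter.unusedVariables false
set_option linter.unusedSectionVars false

universe u v

namespace Pool.Agent.TH188.QS

open IsLocalRing Pool.Agent.W418.LU2

section init

variable {S F K : Type u} [CommRing S] [IsDomain S] [Field F] [Algebra S F] [IsFractionRing S F]
  [Field K] {φ : S →+* K} {V : ValuationSubring K}

/-- The local ring of the ambient scheme is regular. -/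
theorem regular_range [IsRegularRing S] (hφV : ∀ s, φ s ∈ V) :
    IsRegularLocalRing (lo (AA F φ V) (algebraMap S F).range) := by
  set W := AA F φ V with hW
  set P := lo W (algebraMap S F).range with hP
  have hRW : (algebraMap S F).range ≤ W := by
    rintro _ ⟨s, rfl⟩
    exact ⟨φ s, hφV s, Pr.alg s⟩
  have hRP : ∀ s : S, algebraMap S F s ∈ P := fun s => le_lo _ _ ⟨s, rfl⟩
  let ψ : S →+* P := (algebraMap S F).codRestrict P hRP
  let _ : Algebra S P := ψ.toAlgebra
  have halg : ∀ a : S, ((algebraMap S P a : P) : F) = algebraMap S F a := fun a => rfl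
  have hloc : IsLocalRing P := isLocalRing_lo loc_AA hRW
  let 𝔭 : Ideal S := (maximalIdeal P).comap (algebraMap S P)
  have hu : ∀ a : S, a ∉ 𝔭 ↔ IsUnit (algebraMap S P a) := by
    intro a
    change ¬ (algebraMap S P a ∈ maximalIdeal P) ↔ _
    rw [mem_maximalIdeal, mem_nonunits_iff, not_not]
  have hprime : 𝔭.IsPrime := Ideal.IsPrime.comap _
  have hL : IsLocalization.AtPrime P 𝔭 :=
    { map_units := fun y => (hu y.1).1 y.2
      surj := by
        rintro ⟨z, a, ha, b, hb, hb0, hbW, rfl⟩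
        obtain ⟨a', rfl⟩ := ha
        obtain ⟨b', rfl⟩ := hb
        refine ⟨(a', ⟨b', ?_⟩), ?_⟩
        · change b' ∉ 𝔭
          rw [hu, isUnit_lo_iff hRW]
          exact ⟨hb0, hbW⟩
        · apply Subtype.ext
          change algebraMap S F a' * (algebraMap S F b')⁻¹ * algebraMap S F b' = algebraMap S F a'
          rw [mul_assoc, inv_mul_cancel₀ hb0, mul_one]
      exists_of_eq := by
        intro a b h
        refine ⟨1, ?_⟩
        have h1 : a = b := IsFractionRing.injective S F (congrArg (Subtype.val : P → F) h)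
        rw [h1] }
  have hreg : IsRegularLocalRing (Localization.AtPrime 𝔭) :=
    IsRegularRing.isRegularLocalRing_localization 𝔭
  exact IsRegularLocalRing.of_ringEquiv
    (IsLocalization.algEquiv 𝔭.primeCompl (Localization.AtPrime 𝔭) P).toRingEquiv

variable {r : ℕ} {D : Fin r → S → K} (hD : ∀ j, Der φ (D j)) {C : K}
  {f₀ : Fin r → S} {Q : ℕ → Subring K}

/-- The initial state. -/
theorem US.init [IsRegularRing S] (hφV : ∀ s, φ s ∈ V) (hDC : ∀ j s, C * D j s ∈ V)
    (hf₀ : ∀ i, φ (f₀ i) = 0)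
    (hgen : ∀ s, φ s = 0 → ∃ t, φ t ≠ 0 ∧ t * s ∈ Ideal.span (Set.range f₀))
    (hQ0 : Q 0 = lo V.toSubring φ.range) :
    US (F := F) V hD C f₀ Q 0 (lo (AA F φ V) (algebraMap S F).range)
      (fun i => algebraMap S F (f₀ i)) (fun _ => 1) 1 := by
  have hRW : (algebraMap S F).range ≤ AA F φ V := by
    rintro _ ⟨s, rfl⟩
    exact ⟨φ s, hφV s, Pr.alg s⟩
  refine
    { PW := lo_le hRW
      ic := ic_lo hRW
      reg := regular_range hφV
      SP := fun s => le_lo _ _ ⟨s, rfl⟩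
      imQ := ?_
      zbQ := fun i hi => absurd hi (Nat.not_lt_zero i)
      bd := ?_
      fP := fun i => le_lo _ _ ⟨f₀ i, rfl⟩
      f0 := ?_
      gen := ?_
      u0 := one_ne_zero
      uV := by rw [inv_one]; exact V.one_mem
      det := ?_ }
  · rw [im_lo hRW, hQ0]
    congr 1
    ext w
    constructor
    · rintro ⟨_, ⟨s, rfl⟩, h⟩
      exact ⟨s, (Pr.alg s).unique h⟩
    · rintro ⟨s, rfl⟩
      exact ⟨_, ⟨s, rfl⟩, Pr.alg s⟩
  · intro j
    refine lo_le_BB (hD j) ?_
    rintro _ ⟨s, rfl⟩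
    refine ⟨φ s, hφV s, Pr.alg s, ?_⟩
    rw [dd_alg (hD j), Finset.prod_range_zero, mul_one]
    exact hDC j s
  · intro i
    have h1 := Pr.alg (F := F) (φ := φ) (f₀ i)
    rwa [hf₀ i] at h1
  · intro y hy
    obtain ⟨a, b, hb, hyb, hab⟩ := hy
    rw [zero_mul] at hab
    obtain ⟨t, ht, hts⟩ := hgen a hab.symm
    rw [Ideal.mem_span_range_iff_exists_fun] at hts
    obtain ⟨c, hc⟩ := hts
    have htb : φ (t * b) ≠ 0 := by rw [map_mul]; exact mul_ne_zero ht hb
    have htb0 : algebraMap S F (t * b) ≠ 0 := by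
      intro h
      have h1 : t * b = 0 := IsFractionRing.injective S F (by rw [h, map_zero])
      rw [h1, map_zero] at htb
      exact htb rfl
    refine ⟨fun i => algebraMap S F (c i) * (algebraMap S F (t * b))⁻¹, fun i =>
      ⟨_, (Pr.alg (c i)).mul ((Pr.alg (t * b)).inv htb)⟩, ?_⟩
    have h1 : y * algebraMap S F (t * b) = ∑ i, algebraMap S F (c i) * algebraMap S F (f₀ i) := by
      rw [map_mul, mul_left_comm, hyb, ← map_mul, ← hc, map_sum]
      exact Finset.sum_congr rfl fun i _ => map_mul _ _ _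
    rw [eq_comm, ← mul_inv_cancel_right₀ htb0 y, h1, Finset.sum_mul]
    exact Finset.sum_congr rfl fun i _ => by ring
  · rw [Finset.prod_range_zero, one_pow, mul_one, one_mul]
    congr 1
    ext i j
    rw [Matrix.of_apply, Matrix.of_apply, dd_alg (hD j)]

end init

section det

variable {K : Type u} [Field K] {V : ValuationSubring K}

lemma det_mem {r : ℕ} (C : K) (M : Matrix (Fin r) (Fin r) K) (h : ∀ i j, C * M i j ∈ V) :
    C ^ r * M.det ∈ V := by
  have h1 : (C • M).det = C ^ r * M.det := by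
    rw [Matrix.det_smul, Fintype.card_fin]
  rw [← h1]
  let N : Matrix (Fin r) (Fin r) V.toSubring := fun i j => ⟨C * M i j, h i j⟩
  have h2 : (V.toSubring.subtype).mapMatrix N = C • M := by
    ext i j
    rfl
  rw [← h2, ← RingHom.map_det]
  exact (N.det).2

end det

/-- In a divergent sequence of quadratic transforms some ring is regular. -/
theorem exists_regular {S K : Type u} [CommRing S] [IsDomain S] [IsRegularRing S] [Field K]
    {φ : S →+* K} {V : ValuationSubring K} (hφV : ∀ s, φ s ∈ V) {r : ℕ} {D : Fin r → S → K}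
    (hD : ∀ j, Der φ (D j)) {C : K} (hC : C ≠ 0) (hDC : ∀ j s, C * D j s ∈ V) {f₀ : Fin r → S}
    (hf₀ : ∀ i, φ (f₀ i) = 0)
    (hgen : ∀ s, φ s = 0 → ∃ t, φ t ≠ 0 ∧ t * s ∈ Ideal.span (Set.range f₀))
    (hdet : (Matrix.of fun i j => D j (f₀ i)).det ≠ 0)
    {Q : ℕ → Subring K} (hQ0 : Q 0 = lo V.toSubring φ.range)
    (hQs : ∀ n, Q (n + 1) = qt V.toSubring (Q n)) (hmi : ∀ n, ∃ e, Mi V.toSubring (Q n) e)
    (hdv : Dv V Q) : ∃ n, IsRegularLocalRing (Q n) := by
  by_contra hcon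
  push Not at hcon
  have key : ∀ n, ∃ (P : Subring (FractionRing S)) (f : Fin r → FractionRing S) (zb : ℕ → K)
      (u : K), US V hD C f₀ Q n P f zb u := by
    intro n
    induction n with
    | zero => exact ⟨_, _, _, _, US.init hD hφV hDC hf₀ hgen hQ0⟩
    | succ n ih =>
      obtain ⟨P, f, zb, u, h⟩ := ih
      obtain ⟨e, he⟩ := hmi n
      exact h.next (fun hi => hcon n (h.regular hi)) he (hQs n)
  set d₀ := (Matrix.of fun i j => D j (f₀ i)).det with hd₀
  obtain ⟨n, hn⟩ := hdv (C ^ r * d₀) (mul_ne_zero (pow_ne_zero _ hC) hdet)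
  obtain ⟨P, f, zb, u, h⟩ := key n
  refine hn zb h.zbQ ?_
  have hz0 : ∏ i ∈ Finset.range n, zb i ≠ 0 :=
    Finset.prod_ne_zero_iff.2 fun i hi => (h.zbQ i (Finset.mem_range.1 hi)).2.1
  have h1 := det_mem (V := V) (C * ∏ i ∈ Finset.range n, zb i)
    (Matrix.of fun i j => dd φ (D j) (f i)) (fun i j => by
      obtain ⟨w, hw, _, h2⟩ := h.bd j (h.fP i)
      exact h2)
  have h2 := h.det
  have h3 : C ^ r * d₀ * (∏ i ∈ Finset.range n, zb i)⁻¹ = u⁻¹ *
      ((C * ∏ i ∈ Finset.range n, zb i) ^ r * (Matrix.of fun i j => dd φ (D j) (f i)).det) := by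
    have h4 : d₀ = u⁻¹ * ((Matrix.of fun i j => dd φ (D j) (f i)).det *
        (∏ i ∈ Finset.range n, zb i) ^ (r + 1)) := by
      rw [h2, inv_mul_cancel_left₀ h.u0]
    rw [h4, mul_pow, pow_succ]
    field_simp
  rw [h3]
  exact V.mul_mem _ _ h.uV h1

/-- Discrete valuations have divergent sequences. -/
theorem dv_of_dvr {K : Type u} [Field K] {V : ValuationSubring K} (hV : IsDiscreteValuationRing V)
    {Q : ℕ → Subring K} (hQV : ∀ n, Q n ≤ V.toSubring) : Dv V Q := by
  obtain ⟨ϖ, hϖ⟩ := IsDiscreteValuationRing.exists_irreducible V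
  have hϖ0 : (ϖ : K) ≠ 0 := fun h => hϖ.ne_zero (Subtype.ext h)
  have hϖi : (ϖ : K)⁻¹ ∉ V := by
    intro h
    apply hϖ.not_isUnit
    refine isUnit_iff_exists_inv.2 ⟨⟨_, h⟩, Subtype.ext ?_⟩
    exact mul_inv_cancel₀ hϖ0
  -- elements of the maximal ideal
  have hdiv : ∀ z ∈ V, V.valuation z < 1 → z * (ϖ : K)⁻¹ ∈ V := by
    intro z hz hv
    have h1 : (⟨z, hz⟩ : V) ∈ maximalIdeal V := by
      rw [mem_maximalIdeal, mem_nonunits_iff, ValuationSubring.valuation_eq_one_iff]
      exact hv.ne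
    rw [hϖ.maximalIdeal_eq, Ideal.mem_span_singleton] at h1
    obtain ⟨t, ht⟩ := h1
    have h2 : z = (ϖ : K) * t := congrArg Subtype.val ht
    rw [h2, mul_comm (ϖ : K), mul_inv_cancel_right₀ hϖ0]
    exact t.2
  intro x hx
  obtain ⟨n, hn⟩ : ∃ n : ℕ, x * ((ϖ : K) ^ n)⁻¹ ∉ V := by
    by_cases hxV : x ∈ V
    · obtain ⟨k, w, hk⟩ := IsDiscreteValuationRing.eq_unit_mul_pow_irreducible
        (x := (⟨x, hxV⟩ : V)) (fun h => hx (congrArg Subtype.val h)) hϖ
      refine ⟨k + 1, fun hcon => ?_⟩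
      apply hϖi
      have h1 : x = (w : V) * (ϖ : K) ^ k := congrArg Subtype.val hk
      obtain ⟨w', hw'⟩ := isUnit_iff_exists_inv.1 w.isUnit
      have h2 : ((w : V) : K) * (w' : K) = 1 := congrArg Subtype.val hw'
      have hw0 : ((w : V) : K) ≠ 0 := left_ne_zero_of_mul_eq_one h2
      have h3 : (ϖ : K)⁻¹ = (w' : K) * (x * ((ϖ : K) ^ (k + 1))⁻¹) := by
        rw [h1, pow_succ, mul_inv]
        rw [eq_inv_of_mul_eq_one_right h2]
        field_simp
      rw [h3]
      exact V.mul_mem _ _ w'.2 hcon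
    · exact ⟨0, by rwa [pow_zero, inv_one, mul_one]⟩
  refine ⟨n, fun z hz hcon => hn ?_⟩
  have h2 : (∏ i ∈ Finset.range n, z i) * ((ϖ : K) ^ n)⁻¹ ∈ V := by
    have h3 : (∏ i ∈ Finset.range n, z i) * ((ϖ : K) ^ n)⁻¹ =
        ∏ i ∈ Finset.range n, z i * (ϖ : K)⁻¹ := by
      rw [Finset.prod_mul_distrib, Finset.prod_const, Finset.card_range, inv_pow]
    rw [h3]
    refine V.toSubring.prod_mem fun i hi => ?_
    obtain ⟨h4, -, h5⟩ := hz i (Finset.mem_range.1 hi)
    exact hdiv _ (hQV i h4) h5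
  have hz0 : ∏ i ∈ Finset.range n, z i ≠ 0 :=
    Finset.prod_ne_zero_iff.2 fun i hi => (hz i (Finset.mem_range.1 hi)).2.1
  have h4 : x * ((ϖ : K) ^ n)⁻¹ = x * (∏ i ∈ Finset.range n, z i)⁻¹ *
      ((∏ i ∈ Finset.range n, z i) * ((ϖ : K) ^ n)⁻¹) := by
    field_simp
  rw [h4]
  exact V.mul_mem _ _ hcon h2

end Pool.Agent.TH188.QS
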