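import Pool.Agent.W418.LU2.Final

/-!
# Quadratic transforms along local rings in a field
-/

set_option autoImplicit false
set_option linter.unusedVariables false
set_option linter.unusedSectionVars false

universe u v

namespace Pool.Agent.TH188.QS

open IsLocalRing Pool.Agent.W418.LU2

variable {F : Type u} [Field F]

/-- Zero and the elements whose inverses are not in `A`. -/
def NU (A : Subring F) (y : F) : Prop := ¬ (y ≠ 0 ∧ y⁻¹ ∈ A)

lemma lo_le_lo {A B B' : Subring F} (hB' : B' ≤ A) (h : B ≤ lo A B') : lo A B ≤ lo A B' := by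
  rintro z ⟨a, ha, b, hb, hb0, hbA, rfl⟩
  exact (lo A B').mul_mem (h ha) (inv_mem_lo hB' (h hb) hb0 hbA)

/-- `B` is closed under inverses of elements which are units in `A`. -/
def IC (A B : Subring F) : Prop := ∀ y ∈ B, y ≠ 0 → y⁻¹ ∈ A → y⁻¹ ∈ B

lemma IC.lo_eq {A B : Subring F} (h : IC A B) : lo A B = B := by
  apply le_antisymm
  · rintro z ⟨a, ha, b, hb, hb0, hbA, rfl⟩
    exact B.mul_mem ha (h b hb hb0 hbA)
  · exact le_lo A B

lemma ic_lo {A B : Subring F} (hB : B ≤ A) : IC A (lo A B) := fun y hy h0 h1 =>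
  inv_mem_lo hB hy h0 h1

/-- The quadratic transform with respect to `z`. -/
def QP (A B : Subring F) (z : F) : Subring F :=
  lo A (Subring.closure ((B : Set F) ∪ {t | ∃ y ∈ B, NU A y ∧ t = y * z⁻¹}))

/-- `z` is a nonzero nonunit which divides all nonunits of `B` in `A`. -/
structure Mi (A B : Subring F) (z : F) : Prop where
  mem : z ∈ B
  ne : z ≠ 0
  nu : z⁻¹ ∉ A
  min : ∀ y ∈ B, NU A y → y * z⁻¹ ∈ A

/-- The quadratic transform. -/
def qt (A B : Subring F) : Subring F :=
  lo A (Subring.closure ((B : Set F) ∪ {t | ∃ y ∈ B, ∃ z, NU A y ∧ Mi A B z ∧ t = y * z⁻¹}))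

lemma Mi.NU {A B : Subring F} {z : F} (h : Mi A B z) : NU A z := fun h' => h.nu h'.2

lemma qcl_le {A B : Subring F} (hB : B ≤ A) {z : F} (hz : Mi A B z) :
    Subring.closure ((B : Set F) ∪ {t | ∃ y ∈ B, NU A y ∧ t = y * z⁻¹}) ≤ A := by
  rw [Subring.closure_le]
  rintro t (ht | ⟨y, hy, hyn, rfl⟩)
  · exact hB ht
  · exact hz.min y hy hyn

lemma qcl_le' {A B : Subring F} (hB : B ≤ A) :
    Subring.closure ((B : Set F) ∪ {t | ∃ y ∈ B, ∃ z, NU A y ∧ Mi A B z ∧ t = y * z⁻¹}) ≤ A := by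
  rw [Subring.closure_le]
  rintro t (ht | ⟨y, hy, z, hyn, hz, rfl⟩)
  · exact hB ht
  · exact hz.min y hy hyn

lemma qt_le {A B : Subring F} (hB : B ≤ A) : qt A B ≤ A := lo_le (qcl_le' hB)

lemma ic_qt {A B : Subring F} (hB : B ≤ A) : IC A (qt A B) := ic_lo (qcl_le' hB)

lemma le_qt (A B : Subring F) : B ≤ qt A B := fun b hb =>
  le_lo _ _ (Subring.subset_closure (Or.inl hb))

lemma div_mem_qt {A B : Subring F} {z : F} (hz : Mi A B z) {y : F} (hy : y ∈ B)
    (hn : Pool.Agent.TH188.QS.NU A y) : y * z⁻¹ ∈ qt A B :=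
  le_lo _ _ (Subring.subset_closure (Or.inr ⟨y, hy, z, hn, hz, rfl⟩))

lemma qt_eq {A B : Subring F} (hB : B ≤ A) {z : F} (hz : Mi A B z) : qt A B = QP A B z := by
  apply le_antisymm
  · refine lo_le_lo (qcl_le hB hz) ?_
    rw [Subring.closure_le]
    rintro t (ht | ⟨y, hy, z', hyn, hz', rfl⟩)
    · exact le_lo _ _ (Subring.subset_closure (Or.inl ht))
    · have h1 : y * z'⁻¹ = (y * z⁻¹) * (z' * z⁻¹)⁻¹ := by
        have := hz.ne
        have := hz'.ne
        field_simp
      rw [h1]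
      refine ⟨y * z⁻¹, Subring.subset_closure (Or.inr ⟨y, hy, hyn, rfl⟩), z' * z⁻¹,
        Subring.subset_closure (Or.inr ⟨z', hz'.mem, hz'.NU, rfl⟩),
        mul_ne_zero hz'.ne (inv_ne_zero hz.ne), ?_, rfl⟩
      rw [mul_inv, inv_inv, mul_comm]
      exact hz'.min z hz.mem hz.NU
  · refine lo_mono (Subring.closure_mono ?_)
    rintro t (ht | ⟨y, hy, hyn, rfl⟩)
    · exact Or.inl ht
    · exact Or.inr ⟨y, hy, z, hyn, hz, rfl⟩

section regp

variable {A P : Subring F} {ι : Type} [Fintype ι] {x : ι → F}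

/-- The nonunits are combinations of the nonunits among the `x i`. -/
def Full (A P : Subring F) (x : ι → F) : Prop :=
  ∀ y ∈ P, NU A y → ∃ c : ι → F, (∀ i, c i ∈ P) ∧ (∀ i, c i ≠ 0 → (x i)⁻¹ ∉ A) ∧
    y = ∑ i, c i * x i

/-- Blowing up the point. -/
theorem regP_qt [DecidableEq ι] (hA : Loc A) (h : RegP A P x) (j : ι) (hj : (x j)⁻¹ ∉ A)
    (s : Finset ι) (hs : ∀ i ∈ s, i ≠ j ∧ (x i)⁻¹ ∉ A ∧ x i * (x j)⁻¹ ∈ A) :
    RegP A (lo A (Subring.closure ((P : Set F) ∪ {t | ∃ i ∈ s, t = x i * (x j)⁻¹})))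
      (fun i => if i ∈ s then x i * (x j)⁻¹ else x i) := by
  induction s using Finset.induction_on with
  | empty =>
    have h1 : (P : Set F) ∪ {t | ∃ i ∈ (∅ : Finset ι), t = x i * (x j)⁻¹} = (P : Set F) := by
      ext t
      simp
    rw [h1, Subring.closure_eq]
    have h2 : lo A P = P := IC.lo_eq h.inv
    rw [h2]
    simpa using h
  | insert a s ha ih =>
    have h0 := ih fun i hi => hs i (Finset.mem_insert_of_mem hi)
    obtain ⟨haj, hai, hat⟩ := hs a (Finset.mem_insert_self a s)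
    have hjs : j ∉ s := fun hjs => (hs j (Finset.mem_insert_of_mem hjs)).1 rfl
    have hS : Subring.closure ((P : Set F) ∪ {t | ∃ i ∈ s, t = x i * (x j)⁻¹}) ≤ A := by
      rw [Subring.closure_le]
      rintro t (ht | ⟨i, hi, rfl⟩)
      · exact h.PA ht
      · exact (hs i (Finset.mem_insert_of_mem hi)).2.2
    have h1 := RegP.blow hA hS h0 haj (by
      change (if a ∈ s then x a * (x j)⁻¹ else x a)⁻¹ ∉ A
      rwa [if_neg ha]) (by
      change (if j ∈ s then x j * (x j)⁻¹ else x j)⁻¹ ∉ A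
      rwa [if_neg hjs]) (by
      change (if a ∈ s then x a * (x j)⁻¹ else x a) * (if j ∈ s then x j * (x j)⁻¹ else x j)⁻¹ ∈ A
      rwa [if_neg ha, if_neg hjs])
    have h2 : (if a ∈ s then x a * (x j)⁻¹ else x a) *
        (if j ∈ s then x j * (x j)⁻¹ else x j)⁻¹ = x a * (x j)⁻¹ := by
      rw [if_neg ha, if_neg hjs]
    simp only [h2] at h1
    rw [closure_insert_closure] at h1
    have h3 : insert (x a * (x j)⁻¹) ((P : Set F) ∪ {t | ∃ i ∈ s, t = x i * (x j)⁻¹}) =
        (P : Set F) ∪ {t | ∃ i ∈ insert a s, t = x i * (x j)⁻¹} := by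
      ext t
      constructor
      · rintro (rfl | ht | ⟨i, hi, rfl⟩)
        · exact Or.inr ⟨a, Finset.mem_insert_self _ _, rfl⟩
        · exact Or.inl ht
        · exact Or.inr ⟨i, Finset.mem_insert_of_mem hi, rfl⟩
      · rintro (ht | ⟨i, hi, rfl⟩)
        · exact Or.inr (Or.inl ht)
        · rcases Finset.mem_insert.1 hi with rfl | hi
          · exact Or.inl rfl
          · exact Or.inr (Or.inr ⟨i, hi, rfl⟩)
    rw [h3] at h1
    have h4 : Function.update (fun i => if i ∈ s then x i * (x j)⁻¹ else x i) a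
        (x a * (x j)⁻¹) = fun i => if i ∈ insert a s then x i * (x j)⁻¹ else x i := by
      funext i
      by_cases hia : i = a
      · subst hia
        rw [Function.update_self, if_pos (Finset.mem_insert_self _ _)]
      · rw [Function.update_of_ne hia]
        simp only [Finset.mem_insert, hia, false_or]
    rw [h4] at h1
    exact h1

/-- Extension to a full system. -/
theorem RegP.full (h : RegP A P x) : ∃ (m : ℕ) (w : Fin m → F),
    RegP A P (Sum.elim x w) ∧ Full A P (Sum.elim x w) := by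
  classical
  have hreg := h.reg
  let N := {i : ι // (⟨x i, h.mem i⟩ : P) ∈ maximalIdeal P}
  have h0 : Ind (fun i : N => (⟨x i, h.mem i⟩ : P)) :=
    h.ind.ind (Subtype.val : N → ι) Subtype.val_injective fun i => i.2
  obtain ⟨m, w, hw, hd⟩ := h0.extend
  have h1 : Ind (Sum.elim (fun i : N => (⟨x i, h.mem i⟩ : P)) w) := by
    refine ind_of_span hw ?_
    rw [hd, Fintype.card_sum, Fintype.card_fin]
  refine ⟨m, fun i => w i, ⟨h.PA, ?_, ?_, hreg, h.inv, ?_⟩, ?_⟩
  · rintro (i | i)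
    · exact h.ne i
    · intro h2
      exact h1.ne_zero (Sum.inr i) (Subtype.ext h2)
  · rintro (i | i)
    · exact h.mem i
    · exact (w i).2
  · refine IndN.of_ind (Sum.map (Subtype.val : N → ι) (id : Fin m → Fin m))
      (Sum.map_injective.2 ⟨Subtype.val_injective, Function.injective_id⟩) ?_ ?_
    · rintro (i | i) hi
      · exact ⟨Sum.inl ⟨i, hi⟩, rfl⟩
      · exact ⟨Sum.inr i, rfl⟩
    · convert h1 using 1
      funext i
      rcases i with i | i <;> rfl
  · intro y hy hn
    have h2 : (⟨y, hy⟩ : P) ∈ maximalIdeal P := by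
      rw [h.mem_max]
      exact hn
    rw [← hw, Ideal.mem_span_range_iff_exists_fun] at h2
    obtain ⟨c, hc⟩ := h2
    let c' : ι ⊕ Fin m → F := Sum.elim
      (fun i => if hi : (⟨x i, h.mem i⟩ : P) ∈ maximalIdeal P then (c (Sum.inl ⟨i, hi⟩) : F) else 0)
      (fun i => (c (Sum.inr i) : F))
    refine ⟨c', ?_, ?_, ?_⟩
    · rintro (i | i)
      · change (if hi : (⟨x i, h.mem i⟩ : P) ∈ maximalIdeal P then (c (Sum.inl ⟨i, hi⟩) : F)
          else 0) ∈ P
        split_ifs
        · exact (c _).2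
        · exact P.zero_mem
      · exact (c _).2
    · rintro (i | i)
      · intro h3
        change (if hi : (⟨x i, h.mem i⟩ : P) ∈ maximalIdeal P then (c (Sum.inl ⟨i, hi⟩) : F)
          else 0) ≠ 0 at h3
        split_ifs at h3 with h4
        · rw [h.mem_max] at h4
          exact fun h5 => h4 ⟨h.ne i, h5⟩
        · exact absurd rfl h3
      · intro _
        have h4 := h1.1 (Sum.inr i)
        change w i ∈ maximalIdeal P at h4
        rw [h.mem_max] at h4
        exact fun h5 => h4 ⟨fun h6 => h1.ne_zero (Sum.inr i) (Subtype.ext h6), h5⟩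
    · have h3 := congrArg (P.subtype) hc
      rw [map_sum] at h3
      rw [Fintype.sum_sum_type]
      rw [Fintype.sum_sum_type] at h3
      have h4 : (y : F) = P.subtype ⟨y, hy⟩ := rfl
      rw [h4, ← h3]
      congr 1
      refine Fintype.sum_of_injective (Subtype.val : N → ι) Subtype.val_injective _ _ ?_ ?_
      · intro i hi
        change (if hi : (⟨x i, h.mem i⟩ : P) ∈ maximalIdeal P then (c (Sum.inl ⟨i, hi⟩) : F)
          else 0) * x i = 0
        rw [dif_neg, zero_mul]
        intro h5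
        exact hi ⟨⟨i, h5⟩, rfl⟩
      · intro i
        change P.subtype (c (Sum.inl i) * _) =
          (if hi : (⟨x i, h.mem i⟩ : P) ∈ maximalIdeal P then (c (Sum.inl ⟨i, hi⟩) : F)
          else 0) * x i
        rw [dif_pos i.2]
        rfl

end regp

end Pool.Agent.TH188.QS
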