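import Pool.Agent.TH188.QS.Qt

/-!
# The quadratic transform of a regular local ring
-/

set_option autoImplicit false
set_option linter.unusedVariables false
set_option linter.unusedSectionVars false

universe u v

namespace Pool.Agent.TH188.QS

open IsLocalRing Pool.Agent.W418.LU2

variable {F : Type u} [Field F]

section loc

variable {A : Subring F}

lemma NU.mul {a b : F} (ha : a ∈ A) (h : NU A b) : NU A (a * b) := by
  rintro ⟨h0, h1⟩
  refine h ⟨right_ne_zero_of_mul h0, ?_⟩
  have h2 : b⁻¹ = a * (a * b)⁻¹ := by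
    have ha0 := left_ne_zero_of_mul h0
    have hb0 := right_ne_zero_of_mul h0
    field_simp
  rw [h2]
  exact A.mul_mem ha h1

lemma NU.add (hA : Loc A) {a b : F} (ha : a ∈ A) (hb : b ∈ A) (h1 : NU A a) (h2 : NU A b) :
    NU A (a + b) := by
  rintro ⟨h0, h3⟩
  have key : ∀ a : F, NU A a → ¬ (a * (a + b)⁻¹ ≠ 0 ∧ (a * (a + b)⁻¹)⁻¹ ∈ A) → True :=
    fun _ _ _ => trivial
  have e1 : NU A (a * (a + b)⁻¹) := by
    rw [mul_comm]; exact h1.mul h3
  have e2 : NU A (b * (a + b)⁻¹) := by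
    rw [mul_comm]; exact h2.mul h3
  have e3 : 1 - a * (a + b)⁻¹ = b * (a + b)⁻¹ := by
    field_simp
    ring
  rcases hA (a * (a + b)⁻¹) (A.mul_mem ha h3) with h | h
  · exact e1 h
  · rw [e3] at h
    exact e2 h

lemma NU.zero : NU A 0 := fun h => h.1 rfl

lemma NU.sum (hA : Loc A) {ι : Type} (s : Finset ι) {f : ι → F} (hf : ∀ i ∈ s, f i ∈ A)
    (h : ∀ i ∈ s, NU A (f i)) : NU A (∑ i ∈ s, f i) := by
  classical
  induction s using Finset.induction_on with
  | empty => simpa using NU.zero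
  | insert a s ha ih =>
    rw [Finset.sum_insert ha]
    refine NU.add hA (hf a (Finset.mem_insert_self _ _)) (A.sum_mem fun i hi => hf i
      (Finset.mem_insert_of_mem hi)) (h a (Finset.mem_insert_self _ _)) ?_
    exact ih (fun i hi => hf i (Finset.mem_insert_of_mem hi))
      (fun i hi => h i (Finset.mem_insert_of_mem hi))

lemma not_NU_one : ¬ NU A 1 := fun h => h ⟨one_ne_zero, by rw [inv_one]; exact A.one_mem⟩

end loc

section pmon

variable {P P' : Subring F} {ι κ : Type} [Fintype ι] [Fintype κ] {x : ι → F} {x' : κ → F}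

lemma PMon.self (i : ι) : PMon P x (x i) := by
  classical
  exact ⟨1, one_ne_zero, P.one_mem, by rw [inv_one]; exact P.one_mem, Pi.single i 1, by
    rw [mo_single, one_mul]⟩

lemma PMon.unit {u : F} (h0 : u ≠ 0) (h1 : u ∈ P) (h2 : u⁻¹ ∈ P) : PMon P x u :=
  ⟨u, h0, h1, h2, 0, by rw [mo_zero, mul_one]⟩

lemma PMon.pow (hx : ∀ i, x i ≠ 0) {g : F} (hg : PMon P x g) (n : ℕ) : PMon P x (g ^ n) := by
  induction n with
  | zero => rw [pow_zero]; exact PMon.one
  | succ n ih => rw [pow_succ]; exact ih.mul hx hg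

lemma PMon.zpow (hx : ∀ i, x i ≠ 0) {g : F} (hg : PMon P x g) (n : ℤ) : PMon P x (g ^ n) := by
  rcases n with n | n
  · rw [Int.ofNat_eq_natCast, zpow_natCast]
    exact PMon.pow hx hg n
  · rw [zpow_negSucc]
    exact (PMon.pow hx hg _).inv

lemma PMon.prod (hx : ∀ i, x i ≠ 0) {μ : Type v} (s : Finset μ) {g : μ → F}
    (hg : ∀ i ∈ s, PMon P x (g i)) : PMon P x (∏ i ∈ s, g i) := by
  classical
  induction s using Finset.induction_on with
  | empty => simpa using PMon.one
  | insert a s ha ih =>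
    rw [Finset.prod_insert ha]
    exact (hg a (Finset.mem_insert_self _ _)).mul hx
      (ih fun i hi => hg i (Finset.mem_insert_of_mem hi))

lemma PMon.of_gen (hx' : ∀ i, x' i ≠ 0) (hP : P ≤ P') (h : ∀ i, PMon P' x' (x i)) {g : F}
    (hg : PMon P x g) : PMon P' x' g := by
  obtain ⟨u, u0, u1, u2, δ, rfl⟩ := hg
  exact (PMon.unit u0 (hP u1) (hP u2)).mul hx'
    (PMon.prod hx' _ fun i _ => PMon.zpow hx' (h i) _)

end pmon

variable {A P : Subring F} {ι : Type} [Fintype ι] {x : ι → F}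

/-- A parameter which divides. -/
lemma Full.exists_dvd (hA : Loc A) (hPA : P ≤ A) (hx : ∀ i, x i ∈ P) (hf : Full A P x) {z : F}
    (hz : Mi A P z) : ∃ j, (x j)⁻¹ ∉ A ∧ z * (x j)⁻¹ ∈ A ∧ x j ≠ 0 := by
  obtain ⟨c, hc, hc0, hcz⟩ := hf z hz.mem hz.NU
  have h1 : (1 : F) = ∑ i, c i * (x i * z⁻¹) := by
    rw [← mul_inv_cancel₀ hz.ne]
    nth_rewrite 1 [hcz]
    rw [Finset.sum_mul]
    exact Finset.sum_congr rfl fun i _ => by ring
  have hxA : ∀ i, c i ≠ 0 → x i * z⁻¹ ∈ A := fun i hi =>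
    hz.min (x i) (hx i) fun h => hc0 i hi h.2
  by_contra hcon
  push Not at hcon
  refine not_NU_one (A := A) ?_
  rw [h1]
  refine NU.sum hA _ (fun i _ => ?_) (fun i _ => ?_)
  · by_cases hi : c i = 0
    · rw [hi, zero_mul]; exact A.zero_mem
    · exact A.mul_mem (hPA (hc i)) (hxA i hi)
  · by_cases hi : c i = 0
    · rw [hi, zero_mul]; exact NU.zero
    · refine NU.mul (hPA (hc i)) ?_
      rintro ⟨h3, h4⟩
      rw [mul_inv, inv_inv, mul_comm] at h4
      exact left_ne_zero_of_mul h3 (hcon i (hc0 i hi) h4)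

lemma Mi.of_dvd {z z' : F} (hz : Mi A P z) (hm : z' ∈ P) (h0 : z' ≠ 0) (hn : z'⁻¹ ∉ A)
    (h : z * z'⁻¹ ∈ A) : Mi A P z' where
  mem := hm
  ne := h0
  nu := hn
  min := by
    intro y hy hyn
    have h1 : y * z'⁻¹ = (y * z⁻¹) * (z * z'⁻¹) := by
      have := hz.ne
      field_simp
    rw [h1]
    exact A.mul_mem (hz.min y hy hyn) h

/-- The quadratic transform of a regular local ring. -/
theorem regP_step (hA : Loc A) (h : RegP A P x) {z : F} (hz : Mi A P z) :
    ∃ (κ : Type) (_ : Fintype κ) (x' : κ → F), RegP A (qt A P) x' ∧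
      (∀ g, PMon P x g → PMon (qt A P) x' g) ∧ PMon (qt A P) x' z := by
  classical
  obtain ⟨m, w, h1, hf⟩ := RegP.full h
  obtain ⟨j, hj, hzj, hj0⟩ := hf.exists_dvd hA h.PA h1.mem hz
  set y : ι ⊕ Fin m → F := Sum.elim x w with hy
  have hM : Mi A P (y j) := hz.of_dvd (h1.mem j) hj0 hj hzj
  let s : Finset (ι ⊕ Fin m) := Finset.univ.filter fun i => i ≠ j ∧ (y i)⁻¹ ∉ A
  have hs : ∀ i ∈ s, i ≠ j ∧ (y i)⁻¹ ∉ A ∧ y i * (y j)⁻¹ ∈ A := by
    intro i hi
    obtain ⟨-, h2, h3⟩ := Finset.mem_filter.1 hi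
    exact ⟨h2, h3, hM.min _ (h1.mem i) fun h => h3 h.2⟩
  have h2 := regP_qt hA h1 j hj s hs
  have h3 : lo A (Subring.closure ((P : Set F) ∪ {t | ∃ i ∈ s, t = y i * (y j)⁻¹})) = qt A P := by
    apply le_antisymm
    · refine lo_mono (Subring.closure_mono ?_)
      rintro t (ht | ⟨i, hi, rfl⟩)
      · exact Or.inl ht
      · exact Or.inr ⟨y i, h1.mem i, y j, fun h => (hs i hi).2.1 h.2, hM, rfl⟩
    · rw [qt_eq h.PA hM]
      refine lo_mono ?_
      rw [Subring.closure_le]
      rintro t (ht | ⟨v, hv, hvn, rfl⟩)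
      · exact Subring.subset_closure (Or.inl ht)
      · obtain ⟨c, hc, hc0, rfl⟩ := hf v hv hvn
        rw [Finset.sum_mul]
        refine Subring.sum_mem _ fun i _ => ?_
        rw [mul_assoc]
        by_cases hi : c i = 0
        · rw [hi, zero_mul]; exact Subring.zero_mem _
        · refine Subring.mul_mem _ (Subring.subset_closure (Or.inl (hc i))) ?_
          by_cases hij : i = j
          · rw [hij, mul_inv_cancel₀ hj0]
            exact Subring.one_mem _
          · exact Subring.subset_closure (Or.inr ⟨i, Finset.mem_filter.2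
              ⟨Finset.mem_univ _, hij, hc0 i hi⟩, rfl⟩)
  rw [h3] at h2
  refine ⟨ι ⊕ Fin m, inferInstance, _, h2, ?_, ?_⟩
  · intro g hg
    refine PMon.of_gen h2.ne (le_qt A P) ?_ hg
    have key : ∀ i : ι ⊕ Fin m, PMon (qt A P)
        (fun i => if i ∈ s then y i * (y j)⁻¹ else y i) (y i) := by
      intro i
      have hjs : j ∉ s := fun h => (hs j h).1 rfl
      by_cases hi : i ∈ s
      · have e1 := PMon.self (P := qt A P) (x := fun i => if i ∈ s then y i * (y j)⁻¹ else y i) i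
        have e2 := PMon.self (P := qt A P) (x := fun i => if i ∈ s then y i * (y j)⁻¹ else y i) j
        have e3 := e1.mul h2.ne e2
        simp only [if_pos hi, if_neg hjs] at e3
        rwa [inv_mul_cancel_right₀ hj0] at e3
      · have e1 := PMon.self (P := qt A P) (x := fun i => if i ∈ s then y i * (y j)⁻¹ else y i) i
        simp only [if_neg hi] at e1
        exact e1
    exact fun i => key (Sum.inl i)
  · have hjs : j ∉ s := fun h => (hs j h).1 rfl
    have e2 := PMon.self (P := qt A P) (x := fun i => if i ∈ s then y i * (y j)⁻¹ else y i) j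
    simp only [if_neg hjs] at e2
    have e3 : PMon (qt A P) (fun i => if i ∈ s then y i * (y j)⁻¹ else y i) (z * (y j)⁻¹) := by
      refine PMon.unit (mul_ne_zero hz.ne (inv_ne_zero hj0)) (div_mem_qt hM hz.mem hz.NU) ?_
      rw [mul_inv, inv_inv, mul_comm]
      exact div_mem_qt hz (h1.mem j) fun h => hj h.2
    have e4 := e3.mul h2.ne e2
    rwa [inv_mul_cancel_right₀ hj0] at e4

/-- The local ring `P` with the empty system of parameters. -/
lemma RegP.of_reg {A P : Subring F} (hPA : P ≤ A) (hinv : IC A P) (hreg : IsRegularLocalRing P) :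
    RegP A P (Empty.elim : Empty → F) where
  PA := hPA
  ne := fun i => i.elim
  mem := fun i => i.elim
  reg := hreg
  inv := hinv
  ind := by
    intro c _ _ i
    exact i.elim

end Pool.Agent.TH188.QS
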