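import Pool.Agent.TH188.QS.Jet

/-!
# The equations of the quadratic transforms
-/

set_option autoImplicit false
set_option linter.unusedVariables false
set_option linter.unusedSectionVars false

universe u v

namespace Pool.Agent.TH188.QS

open IsLocalRing Pool.Agent.W418.LU2

section up

variable {S F K : Type u} [CommRing S] [IsDomain S] [Field F] [Algebra S F] [IsFractionRing S F]
  [Field K] {φ : S →+* K} {V : ValuationSubring K} {r : ℕ} {D : Fin r → S → K}

/-- The state of the ambient construction. -/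
structure US (V : ValuationSubring K) (hD : ∀ j, Der φ (D j)) (C : K) (f₀ : Fin r → S)
    (Q : ℕ → Subring K) (n : ℕ) (P : Subring F) (f : Fin r → F) (zb : ℕ → K) (u : K) :
    Prop where
  PW : P ≤ AA F φ V
  ic : IC (AA F φ V) P
  reg : IsRegularLocalRing P
  SP : ∀ s, algebraMap S F s ∈ P
  imQ : im φ P = Q n
  zbQ : ∀ i < n, zb i ∈ Q i ∧ zb i ≠ 0 ∧ V.valuation (zb i) < 1
  bd : ∀ j, P ≤ BB F V (hD j) (C * ∏ i ∈ Finset.range n, zb i)
  fP : ∀ i, f i ∈ P
  f0 : ∀ i, Pr φ (f i) 0
  gen : ∀ y : F, Pr φ y 0 → ∃ g : Fin r → F, (∀ i, ∃ w, Pr φ (g i) w) ∧ y = ∑ i, g i * f i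
  u0 : u ≠ 0
  uV : u⁻¹ ∈ V
  det : (Matrix.of fun i j => dd φ (D j) (f i)).det * (∏ i ∈ Finset.range n, zb i) ^ (r + 1) =
    u * (Matrix.of fun i j => D j (f₀ i)).det

variable {hD : ∀ j, Der φ (D j)} {C : K} {f₀ : Fin r → S} {Q : ℕ → Subring K} {n : ℕ}
  {P : Subring F} {f : Fin r → F} {zb : ℕ → K} {u : K}

lemma US.regP (h : US V hD C f₀ Q n P f zb u) :
    RegP (AA F φ V) P (Empty.elim : Empty → F) := RegP.of_reg h.PW h.ic h.reg

/-- If the equations are independent then the ring is regular. -/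
theorem US.regular (h : US V hD C f₀ Q n P f zb u)
    (hi : @Ind P _ h.reg.toIsLocalRing (Fin r) _ (fun i => ⟨f i, h.fP i⟩)) :
    IsRegularLocalRing (Q n) := by
  classical
  have hreg := h.reg
  let θ : P →+* Q n := (prA.comp (Subring.inclusion h.PW)).codRestrict (Q n) (by
    intro y
    rw [← h.imQ]
    exact ⟨y, y.2, prA_spec (Subring.inclusion h.PW y)⟩)
  have hθ : ∀ y : P, Pr φ (y : F) (θ y : K) := fun y => prA_spec (Subring.inclusion h.PW y)
  have hθs : Function.Surjective θ := by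
    rintro ⟨w, hw⟩
    rw [← h.imQ] at hw
    obtain ⟨z, hz, hzw⟩ := hw
    exact ⟨⟨z, hz⟩, Subtype.ext ((hθ ⟨z, hz⟩).unique hzw)⟩
  let f' : Fin r → P := fun i => ⟨f i, h.fP i⟩
  have hθf : ∀ i, θ (f' i) = 0 := fun i => Subtype.ext ((hθ (f' i)).unique (h.f0 i))
  have hJr := hi.regular
  have hJd : IsDomain (P ⧸ Ideal.span (Set.range f')) := Pool.Agent.H379R3.isDomain _
  have hJp := (Ideal.Quotient.isDomain_iff_prime _).1 hJd
  have hJk : Ideal.span (Set.range f') ≤ RingHom.ker θ := by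
    rw [Ideal.span_le]
    rintro _ ⟨i, rfl⟩
    exact hθf i
  have hker : RingHom.ker θ = Ideal.span (Set.range f') := by
    apply le_antisymm _ hJk
    intro y hy
    have hy0 : Pr φ (y : F) 0 := by
      have h1 := hθ y
      rw [RingHom.mem_ker.1 hy] at h1
      exact h1
    obtain ⟨g, hg, hyg⟩ := h.gen y hy0
    choose w a b hb hab _ using hg
    let B : S := ∏ i, b i
    have hB : φ B ≠ 0 := by
      rw [map_prod]
      exact Finset.prod_ne_zero_iff.2 fun i _ => hb i
    have hBg : ∀ i, algebraMap S F B * g i ∈ P := by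
      intro i
      have h1 : algebraMap S F B * g i = algebraMap S F (∏ k ∈ Finset.univ.erase i, b k) *
          algebraMap S F (a i) := by
        rw [← hab i]
        have h2 : B = b i * ∏ k ∈ Finset.univ.erase i, b k :=
          (Finset.mul_prod_erase _ _ (Finset.mem_univ i)).symm
        rw [h2, map_mul]
        ring
      rw [h1]
      exact P.mul_mem (h.SP _) (h.SP _)
    have h1 : (⟨algebraMap S F B, h.SP B⟩ : P) * y ∈ Ideal.span (Set.range f') := by
      have h2 : (⟨algebraMap S F B, h.SP B⟩ : P) * y =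
          ∑ i, (⟨algebraMap S F B * g i, hBg i⟩ : P) * f' i := by
        apply Subtype.ext
        have h3 : ((∑ i, (⟨algebraMap S F B * g i, hBg i⟩ : P) * f' i : P) : F) =
            ∑ i, algebraMap S F B * g i * f i := map_sum P.subtype _ _
        rw [h3]
        change algebraMap S F B * (y : F) = _
        rw [hyg, Finset.mul_sum]
        exact Finset.sum_congr rfl fun i _ => by ring
      rw [h2]
      exact Ideal.sum_mem _ fun i _ => Ideal.mul_mem_left _ _ (Ideal.subset_span ⟨i, rfl⟩)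
    rcases hJp.mem_or_mem h1 with h2 | h2
    · exfalso
      have h3 := hJk h2
      have h4 := hθ ⟨algebraMap S F B, h.SP B⟩
      rw [RingHom.mem_ker.1 h3] at h4
      exact hB ((Pr.alg B).unique h4)
    · exact h2
  have h1 : IsRegularLocalRing (P ⧸ RingHom.ker θ) := by
    rw [hker]
    exact hJr
  exact IsRegularLocalRing.of_ringEquiv (RingHom.quotientKerEquivOfSurjective hθs)

/-- The next state. -/
theorem US.next (h : US V hD C f₀ Q n P f zb u)
    (hi : ¬ @Ind P _ h.reg.toIsLocalRing (Fin r) _ (fun i => ⟨f i, h.fP i⟩)) {e : K}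
    (he : Mi V.toSubring (Q n) e) (hQs : Q (n + 1) = qt V.toSubring (Q n)) :
    ∃ (P' : Subring F) (f' : Fin r → F) (zb' : ℕ → K) (u' : K),
      US V hD C f₀ Q (n + 1) P' f' zb' u' := by
  classical
  have hreg := h.reg
  have R0 := h.regP
  have hmax : ∀ y : P, y ∈ maximalIdeal P ↔ NU (AA F φ V) (y : F) := fun y => R0.mem_max y
  have hfm : ∀ i, (⟨f i, h.fP i⟩ : P) ∈ maximalIdeal P := fun i => by
    rw [hmax]
    exact (Pr.nu (h.f0 i)).2 NU.zero
  unfold Ind at hi
  push Not at hi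
  obtain ⟨a, ha2, i0, hai0⟩ := hi hfm
  rw [hmax] at hai0
  -- the values of the coefficients
  have hav : ∀ k, ∃ w ∈ V, Pr φ (a k : F) w := fun k => h.PW (a k).2
  choose wa hwaV hwa using hav
  have hwa0 : wa i0 ≠ 0 ∧ (wa i0)⁻¹ ∈ V := by
    rw [Pr.nu (hwa i0)] at hai0
    unfold NU at hai0
    rw [not_not] at hai0
    exact hai0
  have hai0' : (a i0 : F) ≠ 0 ∧ (a i0 : F)⁻¹ ∈ AA F φ V := by
    unfold NU at hai0
    rw [not_not] at hai0
    exact hai0
  -- the element of minimal value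
  obtain ⟨z, hzP, hz⟩ : ∃ z ∈ P, Pr φ z e := by
    have h1 := he.mem
    rw [← h.imQ] at h1
    exact h1
  have he' : Mi V.toSubring (im φ P) e := by rw [h.imQ]; exact he
  have hM : Mi (AA F φ V) P z := he'.lift h.PW hzP hz
  have hz0 : z ≠ 0 := hM.ne
  have he0 : e ≠ 0 := he.ne
  obtain ⟨κ, _, x', hx', -, -⟩ := regP_step loc_AA R0 hM
  set P' := qt (AA F φ V) P with hP'
  have hPP' : P ≤ P' := le_qt _ _
  have hzi : Pr φ z⁻¹ e⁻¹ := hz.inv he0
  set NF : F := ∑ k, (a k : F) * f k with hNF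
  have hNF0 : Pr φ NF 0 := by
    have h1 := Pr.sum (φ := φ) (Finset.univ : Finset (Fin r)) (z := fun k => (a k : F) * f k)
      (w := fun k => wa k * 0) fun k _ => (hwa k).mul (h.f0 k)
    simpa using h1
  let f' : Fin r → F := fun i => if i = i0 then NF * (z⁻¹ * z⁻¹) else f i * z⁻¹
  have hf'i0 : f' i0 = NF * (z⁻¹ * z⁻¹) := if_pos rfl
  have hf'i : ∀ i, i ≠ i0 → f' i = f i * z⁻¹ := fun i hi => if_neg hi
  have hc0 : ∀ i < n + 1, Function.update zb n e i ∈ Q i ∧ Function.update zb n e i ≠ 0 ∧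
      V.valuation (Function.update zb n e i) < 1 := by
    intro i hi
    by_cases hin : i = n
    · subst hin
      rw [Function.update_self]
      exact ⟨he.mem, he0, he.lt⟩
    · rw [Function.update_of_ne hin]
      exact h.zbQ i (by omega)
  have hprod : ∏ i ∈ Finset.range (n + 1), Function.update zb n e i =
      (∏ i ∈ Finset.range n, zb i) * e := by
    rw [Finset.prod_range_succ, Function.update_self]
    congr 1
    refine Finset.prod_congr rfl fun i hi => ?_
    rw [Function.update_of_ne (Finset.mem_range.1 hi).ne]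
  -- the derivatives
  have hdf : ∀ j i, i ≠ i0 → dd φ (D j) (f' i) = e⁻¹ * dd φ (D j) (f i) := by
    intro j i hi
    rw [hf'i i hi, dd_mul (hD j) (h.f0 i) hzi, zero_mul, zero_add]
  have hdN : ∀ j, dd φ (D j) NF = ∑ k, wa k * dd φ (D j) (f k) := by
    intro j
    rw [hNF, dd_sum (hD j) _ (w := fun k => wa k * 0) fun k _ => (hwa k).mul (h.f0 k)]
    refine Finset.sum_congr rfl fun k _ => ?_
    rw [dd_mul (hD j) (hwa k) (h.f0 k), zero_mul, add_zero]
  have hdf0 : ∀ j, dd φ (D j) (f' i0) = e⁻¹ * e⁻¹ * ∑ k, wa k * dd φ (D j) (f k) := by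
    intro j
    rw [hf'i0, dd_mul (hD j) hNF0 (hzi.mul hzi), zero_mul, zero_add, hdN]
  have hdet : (Matrix.of fun i j => dd φ (D j) (f' i)).det = e⁻¹ ^ (r + 1) *
      (wa i0 * (Matrix.of fun i j => dd φ (D j) (f i)).det) := by
    set M : Matrix (Fin r) (Fin r) K := Matrix.of fun i j => dd φ (D j) (f i) with hMdef
    have h1 : (Matrix.of fun i j => dd φ (D j) (f' i)) = Matrix.of fun i j =>
        (e⁻¹ * if i = i0 then e⁻¹ else 1) * (M.updateRow i0 (∑ k, (wa k) • M k)) i j := by
      ext i j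
      rw [Matrix.of_apply, Matrix.of_apply]
      by_cases hi : i = i0
      · subst hi
        rw [if_pos rfl, Matrix.updateRow_self, hdf0, Finset.sum_apply]
        rfl
      · rw [if_neg hi, Matrix.updateRow_ne hi, hdf j i hi, mul_one]
        rfl
    rw [h1, Matrix.det_mul_column, Matrix.det_updateRow_sum, smul_eq_mul, Finset.prod_mul_distrib,
      Finset.prod_const, Finset.card_univ, Fintype.card_fin, Finset.prod_ite_eq' Finset.univ i0,
      if_pos (Finset.mem_univ _), pow_succ]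
  refine ⟨P', f', Function.update zb n e, wa i0 * u, ?_⟩
  refine
    { PW := qt_le h.PW
      ic := ic_qt h.PW
      reg := hx'.reg
      SP := fun s => hPP' (h.SP s)
      imQ := ?_
      zbQ := hc0
      bd := ?_
      fP := ?_
      f0 := ?_
      gen := ?_
      u0 := mul_ne_zero hwa0.1 h.u0
      uV := by rw [mul_inv]; exact V.mul_mem _ _ hwa0.2 h.uV
      det := ?_ }
  · rw [hP', im_qt h.PW he' hzP hz, h.imQ, hQs]
  · intro j
    rw [hprod, hP', qt_eq h.PW hM]
    refine lo_le_BB (hD j) ?_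
    rw [Subring.closure_le]
    rintro t (ht | ⟨y, hy, hyn, rfl⟩)
    · obtain ⟨w, hw, h1, h2⟩ := h.bd j ht
      refine ⟨w, hw, h1, ?_⟩
      have h3 : C * ((∏ i ∈ Finset.range n, zb i) * e) * dd φ (D j) t =
          e * (C * (∏ i ∈ Finset.range n, zb i) * dd φ (D j) t) := by ring
      rw [h3]
      exact V.mul_mem _ _ ((V.valuation_le_one_iff _).1 he.lt.le) h2
    · obtain ⟨w, hw, h1, h2⟩ := h.bd j hy
      obtain ⟨w', hw', h1', h2'⟩ := h.bd j hzP
      have h4 : w * e⁻¹ ∈ V := he'.min w ⟨y, hy, h1⟩ ((Pr.nu h1).1 hyn)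
      refine ⟨w * e⁻¹, h4, h1.mul hzi, ?_⟩
      rw [dd_mul (hD j) h1 hzi, dd_inv (hD j) hz he0]
      have h3 : C * ((∏ i ∈ Finset.range n, zb i) * e) *
          (w * -(e⁻¹ * e⁻¹ * dd φ (D j) z) + e⁻¹ * dd φ (D j) y) =
          C * (∏ i ∈ Finset.range n, zb i) * dd φ (D j) y -
          w * e⁻¹ * (C * (∏ i ∈ Finset.range n, zb i) * dd φ (D j) z) := by
        field_simp
        ring
      rw [h3]
      exact V.sub_mem h2 (V.mul_mem _ _ h4 h2')
  · intro i
    by_cases hi : i = i0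
    · subst hi
      rw [hf'i0]
      have h1 : NF = ((∑ k, a k * (⟨f k, h.fP k⟩ : P) : P) : F) := by
        rw [hNF]
        exact (map_sum P.subtype (fun k => a k * (⟨f k, h.fP k⟩ : P)) Finset.univ).symm
      rw [h1]
      rw [pow_two] at ha2
      refine Submodule.mul_induction_on ha2 ?_ ?_
      · intro b hb c hc
        have h2 : ((b * c : P) : F) * (z⁻¹ * z⁻¹) = ((b : F) * z⁻¹) * ((c : F) * z⁻¹) := by
          change (b : F) * (c : F) * (z⁻¹ * z⁻¹) = _
          ring
        rw [h2]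
        exact P'.mul_mem (div_mem_qt hM b.2 ((hmax b).1 hb)) (div_mem_qt hM c.2 ((hmax c).1 hc))
      · intro b c hb hc
        have h2 : ((b + c : P) : F) * (z⁻¹ * z⁻¹) = (b : F) * (z⁻¹ * z⁻¹) +
            (c : F) * (z⁻¹ * z⁻¹) := by
          change ((b : F) + (c : F)) * (z⁻¹ * z⁻¹) = _
          ring
        rw [h2]
        exact P'.add_mem hb hc
    · rw [hf'i i hi]
      exact div_mem_qt hM (h.fP i) ((hmax ⟨f i, h.fP i⟩).1 (hfm i))
  · intro i
    by_cases hi : i = i0
    · subst hi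
      rw [hf'i0]
      have h1 := hNF0.mul (hzi.mul hzi)
      rwa [zero_mul] at h1
    · rw [hf'i i hi]
      have h1 := (h.f0 i).mul hzi
      rwa [zero_mul] at h1
  · intro y hy
    obtain ⟨g, hg, hyg⟩ := h.gen y hy
    choose wg hwg using hg
    have hai : Pr φ (a i0 : F)⁻¹ (wa i0)⁻¹ := (hwa i0).inv hwa0.1
    refine ⟨fun i => if i = i0 then g i0 * (a i0 : F)⁻¹ * (z * z) else
      g i * z - g i0 * (a i0 : F)⁻¹ * (a i : F) * z, ?_, ?_⟩
    · intro i
      by_cases hi : i = i0
      · simp only [if_pos hi]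
        exact ⟨_, ((hwg i0).mul hai).mul (hz.mul hz)⟩
      · simp only [if_neg hi, sub_eq_add_neg]
        exact ⟨_, ((hwg i).mul hz).add ((((hwg i0).mul hai).mul (hwa i)).mul hz).neg⟩
    · have key : ∀ q : Fin r → F, ∑ i, q i = q i0 + ∑ i ∈ Finset.univ.erase i0, q i := fun q =>
        (Finset.add_sum_erase _ _ (Finset.mem_univ i0)).symm
      rw [hyg, key, key (fun i => (if i = i0 then g i0 * (a i0 : F)⁻¹ * (z * z) else
        g i * z - g i0 * (a i0 : F)⁻¹ * (a i : F) * z) * f' i)]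
      rw [if_pos rfl, hf'i0]
      have h1 : ∑ i ∈ Finset.univ.erase i0, (if i = i0 then g i0 * (a i0 : F)⁻¹ * (z * z) else
          g i * z - g i0 * (a i0 : F)⁻¹ * (a i : F) * z) * f' i =
          ∑ i ∈ Finset.univ.erase i0, g i * f i - g i0 * (a i0 : F)⁻¹ *
            ∑ i ∈ Finset.univ.erase i0, (a i : F) * f i := by
        rw [Finset.mul_sum, ← Finset.sum_sub_distrib]
        refine Finset.sum_congr rfl fun i hi => ?_
        have hi' : i ≠ i0 := (Finset.mem_erase.1 hi).1
        rw [if_neg hi', hf'i i hi']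
        field_simp
      rw [h1]
      have h2 : NF = (a i0 : F) * f i0 + ∑ i ∈ Finset.univ.erase i0, (a i : F) * f i := by
        rw [hNF, key]
      rw [h2]
      have h3 := hai0'.1
      field_simp
      ring
  · rw [hdet, hprod, mul_pow]
    have h1 := h.det
    have h2 : e⁻¹ ^ (r + 1) * e ^ (r + 1) = 1 := by
      rw [← mul_pow, inv_mul_cancel₀ he0, one_pow]
    calc e⁻¹ ^ (r + 1) * (wa i0 * (Matrix.of fun i j => dd φ (D j) (f i)).det) *
          ((∏ i ∈ Finset.range n, zb i) ^ (r + 1) * e ^ (r + 1))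
        = (e⁻¹ ^ (r + 1) * e ^ (r + 1)) * (wa i0 * ((Matrix.of fun i j => dd φ (D j) (f i)).det *
          (∏ i ∈ Finset.range n, zb i) ^ (r + 1))) := by ring
      _ = wa i0 * u * (Matrix.of fun i j => D j (f₀ i)).det := by
        rw [h2, h1]
        ring

end up

end Pool.Agent.TH188.QS
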